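import Pool.Agent.Lib.DI.E8.Spec

/-!
# Theorem DI, part E8: characters of odd order
-/

set_option autoImplicit false

open scoped Pointwise Topology

noncomputable section

namespace Pool.Agent.DI.E8

open Pool.Agent.MuZ Pool.Agent.DI

theorem tCh : S_Ch := by
  intro hCop hEps hSum hHN f χ hf hf7 hχ
  obtain ⟨c1, -, -, -, -, -, -, -⟩ := hCop
  obtain ⟨-, e2, e3, -, -, -, -, -, -, -, -⟩ := hEps
  obtain ⟨m, hm, hpow⟩ := hχ.odd
  have hf0 : 0 < f := hf.pos
  have cop1 : Cop 1 f := (c1 1 f).2 isCoprime_one_left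
  have hmne : m ≠ 0 := hm.pos.ne'
  have h1 : χ 1 = 1 := by
    have h := hpow 1 cop1
    have hne : χ 1 ≠ 0 := by
      intro h0
      rw [h0, zero_pow hmne] at h
      exact zero_ne_one h
    have h2 := hχ.mul 1 1
    rw [mul_one] at h2
    exact mul_left_cancel₀ hne (by rw [← h2, mul_one])
  have hpw : ∀ (v : OO) (k : ℕ), χ (v ^ k) = χ v ^ k := by
    intro v k
    induction k with
    | zero => rw [pow_zero, pow_zero, h1]
    | succ k ih => rw [pow_succ, pow_succ, hχ.mul, ih]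
  have hHf : ∀ v, Hf f v → χ v = 1 := by
    rintro v ⟨hc, k, w, hw⟩
    have h2 : v ^ 2 ^ k = 1 + (f : OO) * w := by
      rw [← hw]
      ring
    have h3 : χ v ^ 2 ^ k = 1 := by rw [← hpw, h2, hχ.per, h1]
    have h4 := hpow v hc
    have h5 : orderOf (χ v) ∣ 2 ^ k := orderOf_dvd_of_pow_eq_one h3
    have h6 : orderOf (χ v) ∣ m := orderOf_dvd_of_pow_eq_one h4
    have h8 : orderOf (χ v) ∣ 1 := by
      have h9 := Nat.dvd_gcd h5 h6
      rwa [Nat.Coprime.gcd_eq_one
        (Nat.Coprime.pow_left _ (Nat.coprime_two_left.mpr hm))] at h9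
    exact orderOf_eq_one_iff.mp (Nat.dvd_one.mp h8)
  obtain ⟨⟨hm1, -, -, -⟩, -⟩ := hHN f 0 hf hf7
  have hneg : ∀ v, χ (-v) = χ v := by
    intro v
    have h2 : -v = (-1) * v := by ring
    rw [h2, hχ.mul, hHf _ hm1, one_mul]
  refine ⟨h1, hneg, hHf, ?_, ⟨?_, ?_⟩, ?_⟩
  · intro v
    by_cases hc : Cop v f
    · refine IsIntegral.of_pow hm.pos ?_
      rw [hpow v hc]
      exact isIntegral_one
    · rw [hχ.zero v hc]
      exact isIntegral_zero
  · intro v u
    obtain ⟨g, hg⟩ := hf7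
    show (eps (v + f * u) : Om) * χ (v + f * u) = (eps v : Om) * χ v
    have h2 : (f : OO) * u = 7 * ((g : OO) * u) := by
      rw [hg]
      push_cast
      ring
    rw [hχ.per, h2, e2]
  · intro v
    show (eps (-v) : Om) * χ (-v) = -((eps v : Om) * χ v)
    rw [hneg, e3]
    push_cast
    ring
  · rintro ⟨a, ha, hne⟩
    have hs := (hSum Om f χ hf0 hχ.per).2.1 (fun v => a * v) (by
      intro v u
      show (f : OO) ∣ v - u ↔ (f : OO) ∣ a * v - a * u
      rw [← mul_sub]
      exact ⟨fun h => Dvd.dvd.mul_left h a,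
        fun h => ((c1 a f).1 ha).symm.dvd_of_dvd_mul_left h⟩)
    have h2 : sumO f (fun v => χ (a * v)) = χ a * sumO f χ := by
      unfold sumO
      rw [Finset.mul_sum]
      refine Finset.sum_congr rfl fun x _ => ?_
      rw [Finset.mul_sum]
      exact Finset.sum_congr rfl fun y _ => hχ.mul _ _
    have h3 : (χ a - 1) * sumO f χ = 0 := by
      rw [sub_mul, one_mul, ← h2, hs, sub_self]
    exact (mul_eq_zero.mp h3).resolve_left (sub_ne_zero.mpr hne)

end Pool.Agent.DI.E8
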