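import Pool.Agent.Lib.DI.E8.Spec

/-!
# Theorem DI, part E8, module `E11`: the statement `S_E11`
-/

set_option autoImplicit false

open scoped Pointwise Topology

noncomputable section

namespace Pool.Agent.DI.E8

open Pool.Agent.MuZ Pool.Agent.DI

private theorem E11_sumO (m : ℕ) (F : OO → Om) (G : OO → ℂ) (h : ∀ v, io (F v) = G v) :
    io (sumO m F) = sumO m G := by
  unfold sumO
  rw [map_sum]
  refine Finset.sum_congr rfl fun a _ => ?_
  rw [map_sum]
  exact Finset.sum_congr rfl fun b _ => h _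

private theorem E11_ex (n : ℕ) (k : ℤ) : ex (1 / n) ^ k = ex (k / n) := by
  unfold ex
  rw [← Complex.exp_int_mul]
  congr 1
  ring

/-- **`S_E11`.** -/
theorem tE11 : S_E11' := by
  intro hB0 hA0 hA2 hC3 f hf h7 ρ hρ b n hn
  have hρ' : IsRho f (fun v => io (ρ v)) := by
    refine ⟨fun v u => ?_, fun v => ?_⟩
    · show io (ρ (v + f * u)) = io (ρ v)
      rw [hρ.per]
    · show io (ρ (-v)) = -io (ρ v)
      rw [hρ.odd, map_neg]
  have h1 := (hC3 f hf h7 _ hρ' b n hn).2
  have hfn : 0 < f * n := Nat.mul_pos hf.pos hn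
  obtain ⟨R, hR⟩ : ∃ R : Om, R = 1 / (2 * f * n) *
      sumO (f * n) (fun v => ρ v * zet n ^ (b * Nm v) * eO (toC v / (f * n : ℕ))) := ⟨_, rfl⟩
  have h2 : io R = 1 / (2 * f * n) *
      sumO (f * n) (fun v => io (ρ v) * ex (b * Nm v / n) * EC (toC v / (f * n : ℕ))) := by
    rw [hR, map_mul]
    congr 1
    · rw [map_div₀, map_one, map_mul, map_mul, map_ofNat, map_natCast, map_natCast]
    · apply E11_sumO
      intro v
      rw [map_mul, map_mul, map_zpow₀, (hA2 n hn).1, E11_ex, (hA0 _ ⟨v, f * n, hfn, rfl⟩).2.2]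
      congr 3
      push_cast
      ring
  have h3 : hC (fun v => io (ρ v)) (b / n) = OmC * io R := by
    rw [h1, h2]
    ring
  have h4 : eta ρ (b / n) = R := by
    unfold eta
    rw [h3, mul_div_assoc, mul_comm, div_mul_cancel₀ _ hB0.1, ofC_io]
  rw [← hR]
  refine ⟨?_, h4⟩
  rw [h4, h3, mul_comm]

end Pool.Agent.DI.E8
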