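import Pool.Agent.Lib.DI.E8.Spec

/-!
# Theorem DI, part E8: the functional equations of `η_χ`
-/

set_option autoImplicit false

open scoped Pointwise Topology

noncomputable section

namespace Pool.Agent.DI.E8

open Pool.Agent.MuZ Pool.Agent.DI

theorem tE12 : S_E12' := by
  intro hNm hEps hLi hTr hCh f χ hf h7 hχ
  obtain ⟨-, -, -, nmI, -⟩ := hNm
  obtain ⟨eM, -, -, -, -, ep, epb, e2, eSq, -⟩ := hEps
  obtain ⟨-, -, -, -, hρ, -⟩ := hCh f χ hf h7 hχ
  obtain ⟨t1, t2, t3, -, -⟩ := hTr f hf h7 _ hρ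
  have key : ∀ (a : OO) (r : ℚ), eta (fun v => (eps (a * v) : Om) * χ (a * v)) r =
      ((eps a : Om) * χ a) * etaX χ r := by
    intro a r
    have h1 : (fun v : OO => (eps (a * v) : Om) * χ (a * v)) =
        fun v => ((eps a : Om) * χ a) * ((eps v : Om) * χ v) := by
      funext v
      rw [eM, hχ.mul]
      push_cast
      ring
    rw [h1]
    exact (hLi f hf h7).2.1 _ _ hρ r
  refine ⟨?_, fun r => ?_, fun r => ?_⟩
  · intro a b c d hG r hr
    have hcop : Cop (d : OO) 7 := by
      unfold Cop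
      rw [nmI]
      apply IsCoprime.pow_left
      obtain ⟨h1, ⟨k, hk⟩⟩ := hG
      refine ⟨a, -(b * (f ^ 2 * k)), ?_⟩
      rw [← h1, hk]
      push_cast
      ring
    have hsq : (eps (d : OO) : Om) ^ 2 = 1 := by
      have := eSq _ hcop
      exact_mod_cast this
    have h1 := t1 a b c d hG r hr
    rw [key, key] at h1
    change eta (fun v => (eps v : Om) * χ v) ((a * r + b) / (c * r + d)) = _
    rw [h1]
    have h2 : eta (fun v => (eps v : Om) * χ v) (b / d) = etaX χ (b / d) := rfl
    rw [h2]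
    linear_combination (χ d * etaX χ r - χ d * etaX χ 0) * hsq
  · have h1 := t2 r 1
    push_cast at h1
    exact h1
  · have h1 := t3 r
    rw [key, key, key, ep, epb, e2] at h1
    push_cast at h1
    have h2 : etaX χ (r / 2) = eta (fun v => (eps v : Om) * χ v) (r / 2) := rfl
    have h3 : etaX χ ((r + 1) / 2) = eta (fun v => (eps v : Om) * χ v) ((r + 1) / 2) := rfl
    rw [h2, h3]
    linear_combination h1

end Pool.Agent.DI.E8
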