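import Pool.Agent.Lib.DI.E8.Spec

/-!
# Theorem DI, part E8: integrality and field of definition of `η_χ`
-/

set_option autoImplicit false

open scoped Pointwise Topology

noncomputable section

namespace Pool.Agent.DI.E8

open Pool.Agent.MuZ Pool.Agent.DI

theorem tE13 : S_E13' := by
  intro hEps hCh hOn hIn hGa hPs f χ hf h7 hχ hne r hr
  obtain ⟨c1, c2, c3, c4, hρ, c6⟩ := hCh f χ hf h7 hχ
  obtain ⟨b, n, hn, hnf, hrn⟩ := (hOn f hf h7).1 r hr
  have he : etaX χ r = eta (fun v => (eps v : Om) * χ v) (b / n) := hrn _ hρ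
  refine ⟨fun P hP h2 => ?_, fun τ hτ hL hχτ => ?_⟩
  · have h1 := hIn f hf h7 χ hχ.per c2 hχ.zero c4 b n hn hnf P hP h2
    rw [c6 hne, zero_div, add_zero] at h1
    rw [he]
    exact h1
  · obtain ⟨a, ha, -, -, hea, hHf, -⟩ := hPs.2 f hf h7 τ hτ n hn.pos
    rw [he]
    refine hGa f hf h7 _ _ hρ hρ b n hn τ hτ a ha fun v => ?_
    rw [hEps.1, hχ.mul, hea, c3 a (hHf hL), map_mul, map_intCast, hχτ]
    push_cast
    ring

end Pool.Agent.DI.E8
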