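import Pool.Agent.Lib.DI.E8.Spec

/-!
# Theorem DI, part E8, module E14: the periods
-/

set_option autoImplicit false

open scoped Pointwise Topology

noncomputable section

namespace Pool.Agent.DI.E8

open Pool.Agent.MuZ Pool.Agent.DI

/-- `sumO` as a sum over a finite set of pairs. -/
private theorem E14_sum {R : Type} [AddCommMonoid R] (m : ℕ) (F : OO → R) :
    sumO m F = ∑ p ∈ Finset.range m ×ˢ Finset.range m, F ⟨p.1, p.2⟩ := by
  unfold sumO
  rw [Finset.sum_product]

private theorem E14_map {R S : Type} [AddCommMonoid R] [AddCommMonoid S] (g : R →+ S) (m : ℕ)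
    (F : OO → R) : g (sumO m F) = sumO m (fun v => g (F v)) := by
  rw [E14_sum, E14_sum, map_sum]

theorem tE14 : S_E14' := by
  intro hEps hHN hLi hTr hRh hLa f hf h7
  obtain ⟨-, he7, heneg, -⟩ := hEps
  obtain ⟨⟨hm1, -⟩, -⟩ := hHN f 0 hf h7
  obtain ⟨hL1, hL2⟩ := hLa f hf h7
  obtain ⟨hR1, -, -, -, hR5⟩ := hRh f hf h7
  obtain ⟨hI1, hI2, -⟩ := hLi f hf h7
  refine ⟨lamF f, hL1, ?_⟩
  intro κ σ hper hH hzero hσ a b c d hG hd z hz
  have hρ : IsRho f (fun v => (eps v : Om) * κ v) := by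
    obtain ⟨k, hk⟩ := h7
    refine ⟨fun v u => ?_, fun v => ?_⟩
    · have h1 : v + (f : OO) * u = v + 7 * ((k : OO) * u) := by
        rw [hk]
        push_cast
        ring
      have h2 : eps (v + (f : OO) * u) = eps v := by
        rw [h1, he7]
      change (eps (v + (f : OO) * u) : Om) * κ (v + (f : OO) * u) = (eps v : Om) * κ v
      rw [h2, hper]
    · have h1 : κ (-v) = κ v := by
        have h2 := hH v (-1) hm1
        rwa [neg_one_mul] at h2
      change (eps (-v) : Om) * κ (-v) = -((eps v : Om) * κ v)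
      rw [h1, heneg]
      push_cast
      ring
  have h5 := (hTr f hf h7 _ hρ).2.2.2.2 a b c d hG hd z hz
  have hio : (fun v : OO => io ((eps v : Om) * κ v)) = fun v => (eps v : ℂ) * io (κ v) := by
    funext v
    rw [map_mul, map_intCast]
  rw [hio] at h5
  rw [h5]
  classical
  set N : Om := sumO f (fun v => if Hf f v then (1 : Om) else 0) with hN
  have hNc : sumO f (fun v => if Hf f v then (1 : ℂ) else 0) = io N := by
    rw [hN]
    have h1 := E14_map io.toAddMonoidHom f (fun v => if Hf f v then (1 : Om) else 0)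
    change io (sumO f _) = _ at h1
    rw [h1]
    congr 1
    funext v
    change _ = io _
    split_ifs
    · rw [map_one]
    · rw [map_zero]
  have hfun : (fun w : OO => N * ((eps w : Om) * κ w)) =
      fun w : OO => ∑ p ∈ Finset.range f ×ˢ Finset.range f,
        (if Cop (⟨p.1, p.2⟩ : OO) f then κ ⟨p.1, p.2⟩ else 0) * rhoH f ⟨p.1, p.2⟩ w := by
    funext w
    have h1 := hR5 κ hper hH hzero w
    rw [E14_sum f (fun v => _)] at h1
    rw [hN]
    refine Eq.trans ?_ (Eq.trans h1.symm ?_)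
    · rfl
    · refine Finset.sum_congr rfl fun p _ => ?_
      split_ifs
      · rfl
      · rw [zero_mul]
  have hval : ∀ r : ℚ, N * eta (fun v => (eps v : Om) * κ v) r =
      ∑ p ∈ Finset.range f ×ˢ Finset.range f,
        (if Cop (⟨p.1, p.2⟩ : OO) f then κ ⟨p.1, p.2⟩ else 0) *
          eta (rhoH f ⟨p.1, p.2⟩) r := by
    intro r
    rw [← hI2 N _ hρ r, hfun]
    exact (hI1 (ℕ × ℕ) (Finset.range f ×ˢ Finset.range f)
      (fun p => if Cop (⟨p.1, p.2⟩ : OO) f then κ ⟨p.1, p.2⟩ else 0)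
      (fun p => rhoH f ⟨p.1, p.2⟩) (fun p _ => hR1 _)).2 r
  have hfin : N * (eta (fun v => (eps v : Om) * κ v) (b / d) -
      eta (fun v => (eps v : Om) * κ v) 0) =
      sumO f (fun v => if Cop v f then κ v * σ v (lamF f b d) else 0) := by
    rw [mul_sub, hval, hval, ← Finset.sum_sub_distrib, E14_sum]
    refine Finset.sum_congr rfl fun p _ => ?_
    by_cases hc : Cop (⟨p.1, p.2⟩ : OO) f
    · rw [if_pos hc, if_pos hc, ← mul_sub]
      obtain ⟨s1, s2⟩ := hσ _ hc
      rw [hL2 a b c d hG hd _ _ hc s1 s2]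
    · rw [if_neg hc, if_neg hc, zero_mul, zero_mul, sub_self]
  refine Eq.trans (congrArg (· * _) hNc) ?_
  change io N * (OmC * io _) = _
  rw [mul_left_comm, ← map_mul, hfin]

end Pool.Agent.DI.E8
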