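import Pool.Agent.Lib.DI.E8.Spec

/-!
# THEOREM DI, part E7: Galois action on the values of `E_1` (task 20691)
-/

set_option autoImplicit false

open scoped Pointwise Topology

noncomputable section

namespace Pool.Agent.DI.E8

open Pool.Agent.MuZ Pool.Agent.DI

theorem tEG : S_EG := by
  intro hU hSl hOr n v hn hL τ hτ a ha
  obtain ⟨-, -, -, -, -, -, -, -, -, -, -, hlat, -⟩ := hU
  have hn0 : 0 < n := hn.pos
  have hdv : ¬ (n : OO) ∣ v := fun h => hL ((hlat v n hn0).2 h)
  obtain ⟨m, hmo, hm3, hm⟩ := hOr n v hn hdv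
  have hc1 : Cop (1 : OO) n := by
    have h1 : Nm (1 : OO) = 1 := by
      have e1 : (1 : OO).re = 1 := rfl
      have e2 : (1 : OO).im = 0 := rfl
      rw [Nm, e1, e2]
      norm_num
    show IsCoprime (Nm (1 : OO)) (n : ℤ)
    rw [h1]
    exact isCoprime_one_left
  have hz : ∀ j : ℕ, Lat (j * (toC v / n)) ↔ m ∣ j := by
    intro j
    have h := hm 1 hc1 j
    rwa [one_mul] at h
  have hz' : ∀ j : ℕ, Lat (j * (toC (a * v) / n)) ↔ m ∣ j := fun j => hm a ha.1 j
  have hnd : ∀ j : ℕ, 0 < j → j < m → ¬ m ∣ j := fun j h0 h1 h2 =>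
    absurd (Nat.le_of_dvd h0 h2) (by omega)
  have hP : ∀ j : ℕ, τ (xO (j * (toC v / n))) = xO (j * (toC (a * v) / n)) ∧
      τ (yO (j * (toC v / n))) = yO (j * (toC (a * v) / n)) := by
    intro j
    have e1 : (j : ℂ) * (toC v / n) = toC (j * v) / n := by
      rw [map_mul, map_natCast, mul_div_assoc]
    have e2 : (j : ℂ) * (toC (a * v) / n) = toC (a * (j * v)) / n := by
      rw [mul_left_comm a (j : OO) v, map_mul toC (j : OO), map_natCast, mul_div_assoc]
    rw [e1, e2]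
    exact ha.2 (j * v)
  have hs : ∀ j : ℕ, τ (slp (toC v / n) j) = slp (toC (a * v) / n) j := by
    intro j
    have h1 := hP j
    have h2 := ha.2 v
    unfold slp
    split_ifs with hj
    · simp only [map_div₀, map_sub, map_add, map_mul, map_pow, map_ofNat, h2.1, h2.2]
    · rw [map_div₀, map_sub, map_sub, h1.1, h1.2, h2.1, h2.2]
  have k1 := (hSl (toC v / n) m ⟨v, n, hn0, rfl⟩ hm3
    (fun j h0 h1 h2 => hnd j h0 h1 ((hz j).1 h2)) ((hz m).2 dvd_rfl)).1
  have k2 := (hSl (toC (a * v) / n) m ⟨a * v, n, hn0, rfl⟩ hm3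
    (fun j h0 h1 h2 => hnd j h0 h1 ((hz' j).1 h2)) ((hz' m).2 dvd_rfl)).1
  have k3 := congrArg τ k1
  rw [map_mul, map_natCast, map_add, map_sub, map_sum, map_one, map_div₀, map_one, map_ofNat,
    Finset.sum_congr rfl (fun j _ => hs j), ← k2] at k3
  have hm0 : (m : Om) ≠ 0 := by
    have : m ≠ 0 := by omega
    exact_mod_cast this
  exact add_right_cancel (mul_left_cancel₀ hm0 k3)

end Pool.Agent.DI.E8
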