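import Pool.Agent.Lib.DI.E8.Spec

/-!
# Theorem DI, part E7: integrality of `E_1 + 1/2` at the primes above `2`
-/

set_option autoImplicit false

open scoped Pointwise Topology

noncomputable section

namespace Pool.Agent.DI.E8

open Pool.Agent.MuZ Pool.Agent.DI

private theorem EI_toO_pO : toO pO = wO := by
  change ((0 : ℤ) : Om) + ((1 : ℤ) : Om) * wO = wO
  rw [Int.cast_zero, Int.cast_one, zero_add, one_mul]

private theorem EI_toO_pbO : toO pbO = 1 - wO := by
  change ((1 : ℤ) : Om) + ((-1 : ℤ) : Om) * wO = 1 - wO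
  rw [Int.cast_one, Int.cast_neg, Int.cast_one]
  ring

private theorem EI_quad {P : Ideal ZZ} [hP : P.IsPrime] {s c : Om} (hc : VP P c)
    (h : s ^ 2 + s + c = 0) : VP P s := by
  by_contra hs
  obtain ⟨h0, h1⟩ := VP.not_iff.1 hs
  have h2 : (1 : Om) = -s⁻¹ + -(c * s⁻¹ * s⁻¹) := by
    field_simp
    linear_combination h
  apply MP.one_not (P := P)
  rw [h2]
  exact h1.neg.add (MP.mul_left (hc.mul h1.vp) h1).neg

private theorem EI_w {P : Ideal ZZ} [hP : P.IsPrime] : VP P wO := by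
  have h : (-wO) ^ 2 + (-wO) + 2 = 0 := by linear_combination wO_sq
  have h1 := EI_quad (P := P) (VP.nat 2) (by exact_mod_cast h)
  have h2 := h1.neg
  rwa [neg_neg] at h2

private theorem EI_odd {P : Ideal ZZ} [hP : P.IsPrime] (h2 : MP P 2) {m : ℕ} (hm : Odd m) :
    ¬ MP P (m : Om) := by
  intro h
  obtain ⟨k, rfl⟩ := hm
  apply MP.one_not (P := P)
  have e : (1 : Om) = ((2 * k + 1 : ℕ) : Om) - (k : Om) * 2 := by push_cast; ring
  rw [e]
  exact h.sub (MP.mul_left (VP.nat k) h2)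

theorem tEI : S_EI := by
  intro hUEx hD1 hSl hOr n v hn hz P hPP hP2
  have hP : P.IsPrime := hPP.1
  obtain ⟨-, -, -, -, -, hTm, -, -, -, -, -, hLd, -⟩ := hUEx
  have hn0 : 0 < n := hn.pos
  have hdiv : ¬ (n : OO) ∣ v := fun h => hz ((hLd v n hn0).2 h)
  obtain ⟨m, hm, hm3, hLat⟩ := hOr n v hn hdiv
  have hL : ∀ j : ℕ, Lat (j * (toC v / n)) ↔ m ∣ j := by
    have h1 : Cop 1 n := by
      unfold Cop
      have h2 : Nm 1 = 1 := by decide
      rw [h2]
      exact isCoprime_one_left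
    intro j
    have h3 := hLat 1 h1 j
    rwa [one_mul] at h3
  set z : ℂ := toC v / n with hzdef
  have hTz : Tor z := ⟨v, n, hn0, rfl⟩
  have hTj : ∀ j : ℕ, Tor (j * z) := by
    intro j
    have h1 := hTm (j : OO) z hTz
    rwa [map_natCast] at h1
  have hnl : ∀ j : ℕ, 0 < j → j < m → ¬ Lat (j * z) := by
    intro j hj hjm h
    exact absurd (Nat.le_of_dvd hj ((hL j).1 h)) (not_le.2 hjm)
  have hml : Lat (m * z) := (hL m).2 dvd_rfl
  obtain ⟨hsum, hquad⟩ := hSl z m hTz hm3 hnl hml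
  -- one of the two primes above `2`
  have hpr : ∀ w : ℂ, I2 P w → Qp P w := by
    have h1 : MP P (wO * (1 - wO)) := by
      have e : wO * (1 - wO) = 2 := by linear_combination -wO_sq
      rw [e]
      exact hP2
    rcases MP.mul_cases EI_w (VP.one.sub EI_w) h1 with h | h
    · refine (hD1 pO pbO (Or.inl ⟨rfl, rfl⟩) P hPP ?_).2.2.1
      rw [EI_toO_pO]
      exact h
    · refine (hD1 pbO pO (Or.inr ⟨rfl, rfl⟩) P hPP ?_).2.2.1
      rw [EI_toO_pbO]
      exact h
  -- integrality of the coordinates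
  have hx : ∀ j : ℕ, 0 < j → j < m → VP P (xO (j * z)) := by
    intro j hj hjm
    by_contra hcon
    have h1 := hpr _ ⟨hTj j, Or.inr hcon⟩
    have h2 : Lat (toC 1 * (j * z)) := by
      refine h1 (n : OO) 1 ?_ ?_
      · rw [map_natCast]
        exact EI_odd hP2 hn
      · refine ⟨(j : OO) * v, ?_⟩
        have hn' : (n : ℂ) ≠ 0 := Nat.cast_ne_zero.2 hn0.ne'
        rw [mul_one, map_natCast, map_mul, map_natCast, hzdef]
        field_simp
    rw [map_one, one_mul] at h2
    exact hnl j hj hjm h2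
  have hxz : VP P (xO z) := by
    have h1 := hx 1 one_pos (by omega)
    rwa [Nat.cast_one, one_mul] at h1
  have hs : ∀ j ∈ Finset.Ico 1 (m - 1), VP P (slp z j) := by
    intro j hj
    have hj' := Finset.mem_Ico.1 hj
    have h1 := hquad j hj
    have hc : VP P (1 - xO (j * z) - xO z - xO ((j + 1 : ℕ) * z)) :=
      (((VP.one).sub (hx j (by omega) (by omega))).sub hxz).sub
        (hx (j + 1) (by omega) (by omega))
    refine EI_quad hc ?_
    linear_combination h1
  have hall : VP P ((m : Om) * (eO z + 1 / 2)) := by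
    rw [hsum]
    exact VP.one.sub (VP.sum _ _ hs)
  have hm0 : (m : Om) ≠ 0 := Nat.cast_ne_zero.2 (by omega)
  have hinv : VP P ((m : Om)⁻¹) := (VP.nat m).inv (EI_odd hP2 hm)
  have e : eO z + 1 / 2 = (m : Om)⁻¹ * ((m : Om) * (eO z + 1 / 2)) := by
    rw [← mul_assoc, inv_mul_cancel₀ hm0, one_mul]
  rw [e]
  exact hinv.mul hall

end Pool.Agent.DI.E8
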