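import Pool.Agent.Lib.DI.E8.Spec

/-!
# Theorem DI, parts E7, E8: the Galois action on `η` (`S_Ga`)
-/

set_option autoImplicit false

open scoped Pointwise Topology

noncomputable section

namespace Pool.Agent.DI.E8

open Pool.Agent.MuZ Pool.Agent.DI

private theorem Ga_zero {f n : ℕ} {ρ : OO → Om} (hρ : IsRho f ρ) {v : OO}
    (h : ((f * n : ℕ) : OO) ∣ v) : ρ v = 0 := by
  obtain ⟨w, rfl⟩ := h
  have h1 := hρ.per 0 (n * w)
  have h2 : (0 : OO) + f * (n * w) = ((f * n : ℕ) : OO) * w := by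
    push_cast
    ring
  rw [h2] at h1
  have h3 := hρ.odd 0
  rw [neg_zero] at h3
  rw [h1]
  have h4 : (2 : Om) * ρ 0 = 0 := by linear_combination h3
  rcases mul_eq_zero.1 h4 with h5 | h5
  · exact absurd h5 two_ne_zero
  · exact h5

private theorem Ga_nm (n : ℕ) (v u : OO) : ∃ k : ℤ, Nm (v + n * u) = Nm v + n * k := by
  have h1 : (v + (n : OO) * u).re = v.re + n * u.re := by
    rw [QuadraticAlgebra.re_add, QuadraticAlgebra.re_mul, QuadraticAlgebra.re_natCast,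
      QuadraticAlgebra.im_natCast]
    ring
  have h2 : (v + (n : OO) * u).im = v.im + n * u.im := by
    rw [QuadraticAlgebra.im_add, QuadraticAlgebra.im_mul, QuadraticAlgebra.re_natCast,
      QuadraticAlgebra.im_natCast]
    ring
  refine ⟨2 * v.re * u.re + n * u.re ^ 2 + v.re * u.im + u.re * v.im + n * u.re * u.im +
    4 * v.im * u.im + 2 * n * u.im ^ 2, ?_⟩
  unfold Nm
  rw [h1, h2]
  ring

theorem tGa : S_Ga := by
  intro hB2 hA2 hE6 hE10 hE11 hUNm hUCop hUSum hUEx f hf h7 ρ ρ' hρ hρ' b n hn τ hτ a hPsi hρρ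
  obtain ⟨nm1, nm2, -, -, -, -, -, -, -, -, -, -⟩ := hUNm
  obtain ⟨ex1, -, -, -, -, -, -, -, -, -, -, ex2, -⟩ := hUEx
  have hn0 : 0 < n := hn.pos
  have hm : Odd (f * n) := hf.mul hn
  have hm0 : 0 < f * n := hm.pos
  have hm0' : ((f * n : ℕ) : ℂ) ≠ 0 := by exact_mod_cast hm0.ne'
  have hζ : zet n ^ n = 1 := (hA2 n hn0).2.pow_eq_one
  have hζ0 : zet n ≠ 0 := (hA2 n hn0).2.ne_zero hn0.ne'
  have hτζ : τ (zet n) = zet n ^ (Nm a).toNat := hE6 τ hτ (f * n) a hm0 hPsi (zet n) (by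
    rw [mul_comm f n, pow_mul, hζ, one_pow])
  have hcop : IsCoprime a ((f * n : ℕ) : OO) := (hUCop.1 a (f * n)).1 hPsi.1
  -- the summands
  have key : ∀ v : OO, τ (ρ v * zet n ^ (b * Nm v) * eO (toC v / (f * n : ℕ))) =
      ρ' (a * v) * zet n ^ (b * Nm (a * v)) * eO (toC (a * v) / (f * n : ℕ)) := by
    intro v
    by_cases hL : Lat (toC v / (f * n : ℕ))
    · have h1 : ρ v = 0 := Ga_zero hρ ((ex2 v (f * n) hm0).1 hL)
      rw [hρρ, h1, map_zero, zero_mul, zero_mul, map_zero, zero_mul, zero_mul]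
    · have h1 := (hE10 (f * n) v hm hL).1 τ hτ a hPsi
      have h2 : (((Nm a).toNat : ℕ) : ℤ) = Nm a := Int.toNat_of_nonneg (nm2 a)
      have h3 : τ (zet n ^ (b * Nm v)) = zet n ^ (b * Nm (a * v)) := by
        rw [map_zpow₀, hτζ, ← zpow_natCast, h2, ← zpow_mul, nm1]
        congr 1
        ring
      rw [map_mul, map_mul, h1, h3, hρρ]
  have hper : ∀ v u : OO, ρ' (v + (f * n : ℕ) * u) * zet n ^ (b * Nm (v + (f * n : ℕ) * u)) *
      eO (toC (v + (f * n : ℕ) * u) / (f * n : ℕ)) =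
      ρ' v * zet n ^ (b * Nm v) * eO (toC v / (f * n : ℕ)) := by
    intro v u
    have h1 : ρ' (v + (f * n : ℕ) * u) = ρ' v := by
      rw [← hρ'.per v (n * u)]
      congr 1
      push_cast
      ring
    have h2 : zet n ^ (b * Nm (v + (f * n : ℕ) * u)) = zet n ^ (b * Nm v) := by
      have h3 : v + ((f * n : ℕ) : OO) * u = v + (n : OO) * (f * u) := by
        push_cast
        ring
      obtain ⟨k, hk⟩ := Ga_nm n v (f * u)
      rw [h3, hk, mul_add, zpow_add₀ hζ0]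
      have h4 : b * ((n : ℤ) * k) = n * (b * k) := by ring
      have h5 : zet n ^ (b * ((n : ℤ) * k)) = 1 := by
        rw [h4, zpow_mul, zpow_natCast, hζ, one_zpow]
      rw [h5, mul_one]
    have h3 : toC (v + (f * n : ℕ) * u) / ((f * n : ℕ) : ℂ) = toC v / ((f * n : ℕ) : ℂ) + toC u := by
      rw [map_add, map_mul, map_natCast]
      field_simp
    rw [h1, h2, h3]
    congr 1
    unfold eO
    rw [(hB2.1 _ u).2.2]
  have hφ : ∀ v u : OO, ((f * n : ℕ) : OO) ∣ v - u ↔ ((f * n : ℕ) : OO) ∣ a * v - a * u := by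
    intro v u
    rw [← mul_sub]
    exact ⟨fun h => Dvd.dvd.mul_left h a, fun h => hcop.symm.dvd_of_dvd_mul_left h⟩
  obtain ⟨-, us2, -, -⟩ := hUSum Om (f * n)
    (fun v => ρ' v * zet n ^ (b * Nm v) * eO (toC v / (f * n : ℕ))) hm0 hper
  have h1 := us2 (fun v => a * v) hφ
  rw [(hE11 f hf h7 ρ hρ b n hn0).2, (hE11 f hf h7 ρ' hρ' b n hn0).2, ← h1, map_mul]
  congr 1
  · rw [map_div₀, map_one, map_mul, map_mul, map_ofNat, map_natCast, map_natCast]
  · unfold sumO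
    rw [map_sum]
    refine Finset.sum_congr rfl fun x _ => ?_
    rw [map_sum]
    exact Finset.sum_congr rfl fun y _ => key _

end Pool.Agent.DI.E8
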