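import Pool.Agent.Lib.DI.E8.Spec

/-!
# Theorem DI, part E8: the function lam
-/

set_option autoImplicit false

open scoped Pointwise Topology

noncomputable section

namespace Pool.Agent.DI.E8

open Pool.Agent.MuZ Pool.Agent.DI

open Classical in
/-- The function `1` on `H_f`, `0` elsewhere. -/
private def La_k (f : ℕ) (v : OO) : Om := if Hf f v then 1 else 0

open Classical in
private theorem La_lam (f : ℕ) (b d : ℤ) : lamF f b d =
    if (∃ a c : ℤ, G0 (7 * f ^ 2) a b c d) ∧ (7 * f ^ 2 : ℤ) ∣ d - 1 then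
      eta (rhoH f 1) (b / d) - eta (rhoH f 1) 0 else 0 := by
  unfold lamF
  congr

private theorem La_fix (f : ℕ) (u v : OO) (τ : Gal(Om/ℚ)) : τ (rhoH f u v) = rhoH f u v := by
  unfold rhoH
  split_ifs
  · exact map_intCast τ _
  · exact map_zero τ

theorem tLa : S_La := by
  intro hUHN hOn hGa hPs hRh hIn f hf h7
  obtain ⟨rh1, rh2, rh3, rh4, -⟩ := hRh f hf h7
  obtain ⟨on1, on2⟩ := hOn f hf h7
  obtain ⟨⟨hneg, -, hone, -⟩, hmul, -, hper, -, hcop, -⟩ := hUHN f 0 hf h7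
  -- (A)
  have hA : ∀ r : ℚ, r.den.Coprime f → ∀ (v : OO) (τ : Gal(Om/ℚ)), Cop v f → τ ∈ GK →
      (Psi τ f v ∨ Psi τ f (-v)) → τ (eta (rhoH f 1) r) = eta (rhoH f v) r := by
    intro r hr v τ hv hτ hPsi
    obtain ⟨b', n, hn, hnf, heta⟩ := on1 r hr
    obtain ⟨a, ha1, ha2, ha3, ha4, -, ha6⟩ := hPs.2 f hf h7 τ hτ n hn.pos
    rw [heta _ (rh1 1), heta _ (rh1 v)]
    refine hGa f hf h7 (rhoH f 1) (rhoH f v) (rh1 1) (rh1 v) b' n hn τ hτ a ha1 ?_
    intro w
    rw [La_fix]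
    refine rh2 v a w hv ?_ ha4
    rcases hPsi with h | h
    · exact Or.inl (ha6 v h).1
    · right
      have h1 := (ha6 (-v) h).1
      rwa [sub_neg_eq_add] at h1
  have hden0 : (0 : ℚ).den.Coprime f := by
    rw [Rat.den_zero]
    exact Nat.coprime_one_left f
  have hA2 : ∀ a b c d : ℤ, G0 (7 * f ^ 2) a b c d → (7 * f ^ 2 : ℤ) ∣ d - 1 →
      ∀ (v : OO) (τ : Gal(Om/ℚ)), Cop v f → τ ∈ GK → (Psi τ f v ∨ Psi τ f (-v)) →
      τ (lamF f b d) = eta (rhoH f v) (b / d) - eta (rhoH f v) 0 := by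
    intro a b c d hG hd v τ hv hτ hPsi
    have hcond : (∃ a c : ℤ, G0 (7 * f ^ 2) a b c d) ∧ (7 * f ^ 2 : ℤ) ∣ d - 1 := ⟨⟨a, c, hG⟩, hd⟩
    rw [La_lam, if_pos hcond, map_sub, hA _ (on2 a b c d hG) v τ hv hτ hPsi,
      hA 0 hden0 v τ hv hτ hPsi]
  -- the function `κ`
  have hrho : (rhoH f 1) = fun v => (eps v : Om) * La_k f v := by
    funext v
    unfold rhoH La_k
    by_cases h : Hf f v
    · rw [if_pos ((rh4 v).2 h), if_pos h, mul_one]
    · rw [if_neg (fun h' => h ((rh4 v).1 h')), if_neg h, mul_zero]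
  have hkper : ∀ v u, La_k f (v + f * u) = La_k f v := by
    intro v u
    have h1 : Hf f (v + f * u) ↔ Hf f v := by
      constructor
      · intro h
        have h2 := hper _ (-u) h
        have h3 : v + (f : OO) * u + f * (-u) = v := by ring
        rwa [h3] at h2
      · exact hper v u
    unfold La_k
    by_cases h : Hf f v
    · rw [if_pos h, if_pos (h1.2 h)]
    · rw [if_neg h, if_neg (fun h' => h (h1.1 h'))]
  have hkneg : ∀ v, La_k f (-v) = La_k f v := by
    intro v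
    have h0 : ∀ w, Hf f w → Hf f (-w) := by
      intro w hw
      have h2 := hmul (-1) w hneg hw
      rwa [neg_one_mul] at h2
    have h1 : Hf f (-v) ↔ Hf f v := by
      constructor
      · intro h
        have h2 := h0 _ h
        rwa [neg_neg] at h2
      · exact h0 v
    unfold La_k
    by_cases h : Hf f v
    · rw [if_pos h, if_pos (h1.2 h)]
    · rw [if_neg h, if_neg (fun h' => h (h1.1 h'))]
  have hk0 : ∀ v, ¬ Cop v f → La_k f v = 0 := fun v hv => if_neg (fun h => hv (hcop v h))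
  have hkint : ∀ v, IsIntegral ℤ (La_k f v) := by
    intro v
    unfold La_k
    split_ifs
    · exact isIntegral_one
    · exact isIntegral_zero
  have hint : ∀ r : ℚ, r.den.Coprime f → ∀ P : Ideal ZZ, Npr P → MP P 2 →
      VP P (eta (rhoH f 1) r + sumO f (La_k f) / 4) := by
    intro r hr P hP h2
    obtain ⟨b', n, hn, hnf, heta⟩ := on1 r hr
    rw [heta _ (rh1 1), hrho]
    exact hIn f hf h7 (La_k f) hkper hkneg hk0 hkint b' n hn hnf P hP h2
  refine ⟨fun b d => ?_, hA2⟩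
  by_cases hcond : (∃ a c : ℤ, G0 (7 * f ^ 2) a b c d) ∧ (7 * f ^ 2 : ℤ) ∣ d - 1
  · obtain ⟨⟨a, c, hG⟩, hd⟩ := id hcond
    refine ⟨?_, ?_⟩
    · intro τ hτ a' ha' hH
      have h1 := hA2 a b c d hG hd a' τ (hcop a' hH) hτ (Or.inl ha')
      rw [h1, rh3 a' hH, La_lam, if_pos hcond]
    · intro P hP h2
      have hPp : P.IsPrime := hP.1
      rw [La_lam, if_pos hcond]
      have h3 := VP.sub (hint _ (on2 a b c d hG) P hP h2) (hint 0 hden0 P hP h2)
      have h4 : eta (rhoH f 1) (b / d) + sumO f (La_k f) / 4 -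
          (eta (rhoH f 1) 0 + sumO f (La_k f) / 4) =
          eta (rhoH f 1) (b / d) - eta (rhoH f 1) 0 := by ring
      rwa [h4] at h3
  · rw [La_lam, if_neg hcond]
    exact ⟨zero_mem _, fun P hP _ => by
      have hPp : P.IsPrime := hP.1
      exact VP.zero⟩

end Pool.Agent.DI.E8
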