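import Pool.Agent.Lib.DI.E8.Spec

/-!
# Theorem DI, part E8, module `Li`: linearity of `eta`

Author helper72 (proof of helper58, docstring of `S_Li`).
-/

set_option autoImplicit false

open scoped Pointwise Topology

noncomputable section

namespace Pool.Agent.DI.E8

open Pool.Agent.MuZ Pool.Agent.DI

private lemma Li_sumO_sum (m : ℕ) (ι : Type) (s : Finset ι) (F : ι → OO → Om) :
    sumO m (fun v => ∑ i ∈ s, F i v) = ∑ i ∈ s, sumO m (F i) := by
  unfold sumO
  rw [Finset.sum_comm]
  rw [Finset.sum_comm]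
  symm
  rw [Finset.sum_comm]
  refine Finset.sum_congr rfl fun a _ => ?_
  rw [Finset.sum_comm]

private lemma Li_sumO_mul (m : ℕ) (c : Om) (F : OO → Om) :
    sumO m (fun v => c * F v) = c * sumO m F := by
  unfold sumO
  rw [Finset.mul_sum]
  refine Finset.sum_congr rfl fun a _ => ?_
  rw [Finset.mul_sum]

private lemma Li_sum (f : ℕ) (ι : Type) (s : Finset ι) (c : ι → Om) (ρ : ι → OO → Om)
    (h : ∀ i ∈ s, IsRho f (ρ i)) : IsRho f (fun v => ∑ i ∈ s, c i * ρ i v) where
  per v u := Finset.sum_congr rfl fun i hi => by rw [(h i hi).per]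
  odd v := by
    rw [← Finset.sum_neg_distrib]
    exact Finset.sum_congr rfl fun i hi => by rw [(h i hi).odd, mul_neg]

private lemma Li_smul (f : ℕ) (c : Om) (ρ : OO → Om) (h : IsRho f ρ) :
    IsRho f (fun v => c * ρ v) where
  per v u := by rw [h.per]
  odd v := by rw [h.odd, mul_neg]

private lemma Li_eta (hE : S_E11) (f : ℕ) (hf : Odd f) (h7 : 7 ∣ f) (ρ : OO → Om) (h : IsRho f ρ)
    (r : ℚ) : eta ρ r = 1 / (2 * f * r.den) *
      sumO (f * r.den) (fun v => ρ v * zet r.den ^ (r.num * Nm v) * eO (toC v / (f * r.den : ℕ))) := by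
  have := (hE f hf h7 ρ h r.num r.den r.den_pos).2
  rwa [Rat.num_div_den] at this

/-- Linearity of `eta`. -/
theorem tLi : S_Li := by
  intro hE f hf h7
  refine ⟨fun ι s c ρ h => ⟨Li_sum f ι s c ρ h, fun r => ?_⟩, fun c ρ h r => ?_, fun a ρ h => ?_⟩
  · rw [Li_eta hE f hf h7 _ (Li_sum f ι s c ρ h)]
    have e : (fun v : OO => (∑ i ∈ s, c i * ρ i v) * zet r.den ^ (r.num * Nm v) *
        eO (toC v / (f * r.den : ℕ))) = fun v => ∑ i ∈ s, c i *
          (ρ i v * zet r.den ^ (r.num * Nm v) * eO (toC v / (f * r.den : ℕ))) := by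
      funext v
      rw [Finset.sum_mul, Finset.sum_mul]
      exact Finset.sum_congr rfl fun i _ => by ring
    rw [e, Li_sumO_sum, Finset.mul_sum]
    refine Finset.sum_congr rfl fun i hi => ?_
    rw [Li_sumO_mul, Li_eta hE f hf h7 _ (h i hi)]
    ring
  · rw [Li_eta hE f hf h7 _ (Li_smul f c ρ h), Li_eta hE f hf h7 _ h]
    have e : (fun v : OO => c * ρ v * zet r.den ^ (r.num * Nm v) *
        eO (toC v / (f * r.den : ℕ))) = fun v => c *
          (ρ v * zet r.den ^ (r.num * Nm v) * eO (toC v / (f * r.den : ℕ))) := by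
      funext v
      ring
    rw [e, Li_sumO_mul]
    ring
  · exact ⟨fun v u => by
      have e : a * (v + f * u) = a * v + f * (a * u) := by ring
      show ρ (a * (v + f * u)) = ρ (a * v)
      rw [e, h.per], fun v => by
      show ρ (a * -v) = -ρ (a * v)
      rw [mul_neg, h.odd]⟩

end Pool.Agent.DI.E8
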