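import Pool.Agent.Lib.DI.E8.Spec

/-!
# Theorem DI, part E8: reduction to odd denominators
-/

set_option autoImplicit false

open scoped Pointwise Topology

noncomputable section

namespace Pool.Agent.DI.E8

open Pool.Agent.MuZ Pool.Agent.DI

private theorem On_den (b d : ℤ) : (((b / d : ℚ).den : ℕ) : ℤ) ∣ d := by
  rw [← Rat.divInt_eq_div]
  exact Rat.den_dvd b d

theorem tOn : S_On := by
  intro hTr f hf h7
  obtain ⟨k7, hk7⟩ := h7
  constructor
  · intro r hr
    rcases Nat.even_or_odd r.den with he | ho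
    · -- the denominator is even
      have hden : IsCoprime (r.den : ℤ) (f : ℤ) := Nat.isCoprime_iff_coprime.2 hr
      have h7c : IsCoprime (r.den : ℤ) (7 : ℤ) := by
        refine IsCoprime.of_isCoprime_of_dvd_right hden ⟨(k7 : ℤ), ?_⟩
        rw [hk7]
        push_cast
        ring
      have hnum : IsCoprime (r.den : ℤ) r.num := by
        have h1 := r.reduced
        exact (Int.isCoprime_iff_nat_coprime.2 (by simpa using h1)).symm
      have hall : IsCoprime (r.den : ℤ) (7 * (f : ℤ) ^ 2 * r.num) :=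
        (h7c.mul_right (hden.pow_right)).mul_right hnum
      obtain ⟨x, y, hxy⟩ := hall
      have hG : G0 (7 * (f : ℤ) ^ 2) x r.num (-(7 * (f : ℤ) ^ 2 * y)) (r.den : ℤ) := by
        refine ⟨by linear_combination hxy, ⟨-y, by ring⟩⟩
      obtain ⟨e, hee⟩ := he
      -- `c + d` is odd
      have hodd : Odd (-(7 * (f : ℤ) ^ 2 * y) + (r.den : ℤ)) := by
        have h2 : Odd (r.num * (7 * (f : ℤ) ^ 2 * y)) := by
          have h3 : r.num * (7 * (f : ℤ) ^ 2 * y) = 2 * (-(x * e)) + 1 := by
            have h4 : (r.den : ℤ) = e + e := by exact_mod_cast hee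
            rw [h4] at hxy
            linear_combination hxy
          exact ⟨_, h3⟩
        have h5 : Odd (7 * (f : ℤ) ^ 2 * y) := (Int.odd_mul.1 h2).2
        have h6 : Even (r.den : ℤ) := ⟨e, by exact_mod_cast hee⟩
        exact h5.neg.add_even h6
      have hcop : IsCoprime (-(7 * (f : ℤ) ^ 2 * y) + (r.den : ℤ)) (f : ℤ) := by
        have h8 : -(7 * (f : ℤ) ^ 2 * y) + (r.den : ℤ) = r.den + f * (-(7 * f * y)) := by ring
        rw [h8]
        exact hden.add_mul_left_left _
      have hne : -(7 * (f : ℤ) ^ 2 * y) * 1 + (r.den : ℤ) ≠ 0 := by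
        intro h0
        rw [mul_one] at h0
        rw [h0] at hodd
        exact (by decide : ¬ Odd (0 : ℤ)) hodd
      set q : ℤ := -(7 * (f : ℤ) ^ 2 * y) + (r.den : ℤ) with hq
      refine ⟨q.sign * (x + r.num), q.natAbs, Int.natAbs_odd.2 hodd, ?_, fun ρ hρ => ?_⟩
      · have h9 := Int.isCoprime_iff_nat_coprime.1 hcop
        simpa using h9
      · have h10 := (hTr f hf ⟨k7, hk7⟩ ρ hρ).2.2.2.1 x r.num (-(7 * (f : ℤ) ^ 2 * y)) (r.den : ℤ) hG 1 hne
        have h11 : ((r.num : ℚ) / ((r.den : ℤ) : ℚ)) = r := by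
          rw [Int.cast_natCast]
          exact Rat.num_div_den r
        rw [h11] at h10
        rw [← h10]
        congr 1
        have hq0 : q ≠ 0 := by
          rw [hq]
          intro h0
          exact hne (by rw [mul_one]; exact h0)
        have hqq : (q : ℚ) ≠ 0 := Int.cast_ne_zero.2 hq0
        have hqc : (((-(7 * (f : ℤ) ^ 2 * y) : ℤ) : ℚ) * ((1 : ℤ) : ℚ) + ((r.den : ℤ) : ℚ)) = (q : ℚ) := by
          rw [hq]
          push_cast
          ring
        rw [hqc]
        have hna : ((q.natAbs : ℕ) : ℚ) = (q.sign : ℚ) * (q : ℚ) := by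
          have h12 : |q| = q.sign * q := (Int.sign_mul_self_eq_abs q).symm
          rw [Nat.cast_natAbs, h12]
          push_cast
          ring
        have hs : (q.sign : ℚ) ≠ 0 := by
          rw [Int.cast_ne_zero]
          exact fun h => hq0 (Int.sign_eq_zero_iff_zero.1 h)
        rw [hna]
        push_cast
        field_simp
    · exact ⟨r.num, r.den, ho, hr, fun ρ _ => by rw [Rat.num_div_den]⟩
  · intro a b c d hG
    obtain ⟨hdet, t, ht⟩ := hG
    have h1 : IsCoprime (d : ℤ) (f : ℤ) := by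
      refine ⟨a, -(b * 7 * f * t), ?_⟩
      rw [ht] at hdet
      linear_combination hdet
    have h2 : IsCoprime (((b / d : ℚ).den : ℕ) : ℤ) (f : ℤ) :=
      IsCoprime.of_isCoprime_of_dvd_left h1 (On_den b d)
    exact Nat.isCoprime_iff_coprime.1 h2

end Pool.Agent.DI.E8
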