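import Pool.Agent.Lib.DI.E8.Spec

/-!
# Theorem DI, part E8: the order of a torsion point
-/

set_option autoImplicit false

open scoped Pointwise Topology

noncomputable section

namespace Pool.Agent.DI.E8

open Pool.Agent.MuZ Pool.Agent.DI

private theorem Or_coord (n : ℕ) (u : OO) : (n : OO) ∣ u ↔ (n : ℤ) ∣ u.re ∧ (n : ℤ) ∣ u.im := by
  have hre : ((n : OO)).re = (n : ℤ) := QuadraticAlgebra.re_natCast n
  have him : ((n : OO)).im = 0 := QuadraticAlgebra.im_natCast n
  constructor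
  · rintro ⟨w, rfl⟩
    have h1 : ((n : OO) * w).re = (n : ℤ) * w.re := by
      rw [QuadraticAlgebra.re_mul, hre, him]
      ring
    have h2 : ((n : OO) * w).im = (n : ℤ) * w.im := by
      rw [QuadraticAlgebra.im_mul, hre, him]
      ring
    rw [h1, h2]
    exact ⟨Dvd.intro _ rfl, Dvd.intro _ rfl⟩
  · rintro ⟨⟨x, hx⟩, ⟨y, hy⟩⟩
    refine ⟨⟨x, y⟩, ?_⟩
    apply QuadraticAlgebra.ext
    · rw [QuadraticAlgebra.re_mul, hre, him, hx]
      ring
    · rw [QuadraticAlgebra.im_mul, hre, him, hy]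
      ring

private theorem Or_mul (n j : ℕ) (v : OO) :
    (n : OO) ∣ (j : OO) * v ↔ n ∣ j * Int.gcd v.re v.im := by
  have hre : ((j : OO)).re = (j : ℤ) := QuadraticAlgebra.re_natCast j
  have him : ((j : OO)).im = 0 := QuadraticAlgebra.im_natCast j
  have h1 : ((j : OO) * v).re = (j : ℤ) * v.re := by
    rw [QuadraticAlgebra.re_mul, hre, him]
    ring
  have h2 : ((j : OO) * v).im = (j : ℤ) * v.im := by
    rw [QuadraticAlgebra.im_mul, hre, him]
    ring
  rw [Or_coord, h1, h2]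
  have h3 : Int.gcd ((j : ℤ) * v.re) ((j : ℤ) * v.im) = j * Int.gcd v.re v.im := by
    rw [Int.gcd_mul_left, Int.natAbs_natCast]
  rw [← h3]
  constructor
  · rintro ⟨h4, h5⟩
    exact Int.natCast_dvd_natCast.mp (Int.dvd_coe_gcd h4 h5)
  · intro h
    have h4 : (n : ℤ) ∣ (Int.gcd ((j : ℤ) * v.re) ((j : ℤ) * v.im) : ℤ) :=
      Int.natCast_dvd_natCast.mpr h
    exact ⟨h4.trans (Int.gcd_dvd_left ..), h4.trans (Int.gcd_dvd_right ..)⟩

/-- **Or.** The order of a torsion point, and of its multiples. -/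
theorem tOr : S_Or := by
  intro hUNm hUEx n v hn hv
  obtain ⟨_, _, _, _, hcj, _⟩ := hUNm
  obtain ⟨_, _, _, _, _, _, _, _, _, _, _, hlat, _⟩ := hUEx
  have hn0 : 0 < n := hn.pos
  set g := Int.gcd v.re v.im with hg
  have hd0 : 0 < Nat.gcd n g := Nat.gcd_pos_of_pos_left _ hn0
  obtain ⟨m, hm⟩ := Nat.gcd_dvd_left n g
  obtain ⟨g', hg'⟩ := Nat.gcd_dvd_right n g
  have hco : Nat.Coprime m g' := by
    have h1 := Nat.coprime_div_gcd_div_gcd hd0
    have h2 : n / Nat.gcd n g = m := Nat.div_eq_of_eq_mul_right hd0 hm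
    have h3 : g / Nat.gcd n g = g' := Nat.div_eq_of_eq_mul_right hd0 hg'
    rw [h2, h3] at h1
    exact h1
  have key : ∀ j : ℕ, n ∣ j * g ↔ m ∣ j := by
    intro j
    have h1 : j * g = Nat.gcd n g * (j * g') := by
      conv_lhs => rw [hg']
      ring
    have h2 : n ∣ j * g ↔ Nat.gcd n g * m ∣ Nat.gcd n g * (j * g') := by
      rw [← h1, ← hm]
    rw [h2, Nat.mul_dvd_mul_iff_left hd0]
    exact ⟨fun h => hco.dvd_of_dvd_mul_right h, fun h => Dvd.dvd.mul_right h _⟩
  have hmn : m ∣ n := Dvd.intro_left _ hm.symm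
  have hmo : Odd m := Odd.of_dvd_nat hn hmn
  refine ⟨m, hmo, ?_, ?_⟩
  · have h1 : m ≠ 1 := by
      rintro rfl
      apply hv
      have h2 := (Or_mul n 1 v).mpr ((key 1).mpr dvd_rfl)
      rwa [Nat.cast_one, one_mul] at h2
    obtain ⟨k, hk⟩ := hmo
    omega
  · intro a ha j
    have h1 : (j : ℂ) * (toC (a * v) / n) = toC ((j : OO) * (a * v)) / n := by
      rw [map_mul toC (j : OO), map_natCast]
      ring
    rw [h1, hlat _ n hn0, ← key j, ← Or_mul n j v]
    constructor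
    · intro h
      obtain ⟨x, y, hxy⟩ := ha
      have h2 : ((x : ℤ) : OO) * (a * cjO a) + ((y : ℤ) : OO) * (n : OO) = 1 := by
        rw [← hcj a]
        have h3 := congrArg (fun t : ℤ => ((t : ℤ) : OO)) hxy
        push_cast at h3
        exact h3
      have h4 : (j : OO) * v = (x : OO) * cjO a * ((j : OO) * (a * v)) +
          (n : OO) * ((y : OO) * ((j : OO) * v)) := by
        linear_combination (-((j : OO) * v)) * h2
      rw [h4]
      exact dvd_add (Dvd.dvd.mul_left h _) (Dvd.intro _ rfl)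
    · intro h
      have h2 : (j : OO) * (a * v) = a * ((j : OO) * v) := by ring
      rw [h2]
      exact Dvd.dvd.mul_left h _

end Pool.Agent.DI.E8
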