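import Pool.Agent.Lib.DI.E8.Spec

/-! # Theorem DI, module E8/Ps: `Psi` modulo a divisor (helper46) -/

set_option autoImplicit false

open scoped Pointwise Topology

noncomputable section

namespace Pool.Agent.DI.E8

open Pool.Agent.MuZ Pool.Agent.DI

private theorem Ps_level (τ : Gal(Om/ℚ)) (m k : ℕ) (a : OO) (hm : 0 < m) (hk : 0 < k)
    (h : Psi τ (m * k) a) : Psi τ m a := by
  refine ⟨?_, fun v => ?_⟩
  · have h1 := h.1
    unfold Cop at *
    push_cast at h1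
    exact h1.of_mul_right_left
  · have hk0 : (k : ℂ) ≠ 0 := Nat.cast_ne_zero.2 hk.ne'
    have hm0 : (m : ℂ) ≠ 0 := Nat.cast_ne_zero.2 hm.ne'
    have e : ∀ u : OO, toC (u * (k : OO)) / ((m * k : ℕ) : ℂ) = toC u / m := by
      intro u
      rw [map_mul, map_natCast]
      push_cast
      field_simp
    have h1 := h.2 (v * (k : OO))
    rw [← mul_assoc, e, e] at h1
    exact h1

theorem tPs : S_Ps := by
  intro h1 h5 h8 hH
  refine ⟨fun τ m k a hm hk h => Ps_level τ m k a hm hk h, ?_⟩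
  intro f hf h7 τ hτ n hn
  have hf0 : 0 < f := hf.pos
  obtain ⟨a, ha⟩ := h1.1 τ hτ (f * n) (Nat.mul_pos hf0 hn)
  have ha' : Psi τ f a := Ps_level τ f n a hf0 hn ha
  obtain ⟨hs1, hs2, -, hs4, -, hs6, -⟩ := hH f 0 hf h7
  have hG := (h8 f (Hf f) hf0 hs1.1 hs6 hs4 hs2).2.2 τ hτ a ha'
  refine ⟨a, ha, ha', ha'.1, h5 τ hτ (f * n) a (Nat.mul_pos hf0 hn) (h7.mul_right n) ha,
    fun hx => hG.1 hx, fun a' hp => ?_⟩
  have hd := h1.2 τ f a a' hf0 ha' hp
  refine ⟨hd, fun hh => ?_⟩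
  obtain ⟨u, hu⟩ := hd
  have : a = a' + f * u := by rw [← hu]; ring
  rw [this]
  exact hs4 a' u hh

end Pool.Agent.DI.E8
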