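import Pool.Agent.Lib.DI.E8.Spec

/-!
# Theorem DI, part E8: the functions rhoH
-/

set_option autoImplicit false

open scoped Pointwise Topology

noncomputable section

namespace Pool.Agent.DI.E8

open Pool.Agent.MuZ Pool.Agent.DI

private theorem Rh_pos (f : ℕ) (u v : OO) (h : Cos f u v) : rhoH f u v = (eps v : Om) := by
  unfold rhoH
  rw [if_pos h]

private theorem Rh_neg (f : ℕ) (u v : OO) (h : ¬ Cos f u v) : rhoH f u v = 0 := by
  unfold rhoH
  rw [if_neg h]

private theorem Rh_congr (f : ℕ) (u v u' v' : OO) (h : Cos f u v ↔ Cos f u' v')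
    (he : eps v = eps v') : rhoH f u v = rhoH f u' v' := by
  by_cases h1 : Cos f u v
  · rw [Rh_pos f u v h1, Rh_pos f u' v' (h.1 h1), he]
  · rw [Rh_neg f u v h1, Rh_neg f u' v' (fun h2 => h1 (h.2 h2))]

private theorem Rh_sum_mul (m : ℕ) (F : OO → Om) (c : Om) :
    sumO m (fun v => F v * c) = sumO m F * c := by
  unfold sumO
  rw [Finset.sum_mul]
  refine Finset.sum_congr rfl fun a _ => ?_
  rw [Finset.sum_mul]

private theorem Rh_sum_zero (m : ℕ) : sumO m (fun _ : OO => (0 : Om)) = 0 := by
  unfold sumO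
  rw [Finset.sum_eq_zero]
  intro a _
  exact Finset.sum_const_zero

theorem tRh : S_Rh := by
  intro hUCop hUEps hUSum hUHN f hf h7
  classical
  obtain ⟨uc1, uc2, uc3, -⟩ := hUCop
  obtain ⟨ue1, ue2, ue3, -⟩ := hUEps
  obtain ⟨⟨hneg, -, hone, -⟩, hmul, -, hper, -, hcop, -, -, -, hinv, -⟩ := hUHN f 0 hf h7
  have hperd : ∀ v w : OO, Hf f v → (f : OO) ∣ w - v → Hf f w := by
    rintro v w hv ⟨x, hx⟩
    have h1 : w = v + f * x := by linear_combination hx
    rw [h1]
    exact hper v x hv
  have hnegH : ∀ v : OO, Hf f v → Hf f (-v) := by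
    intro v hv
    have h1 := hmul (-1) v hneg hv
    rwa [neg_one_mul] at h1
  have hepsper : ∀ v x : OO, eps (v + f * x) = eps v := by
    intro v x
    obtain ⟨k, hk⟩ := h7
    have h1 : v + (f : OO) * x = v + 7 * ((k : OO) * x) := by
      rw [hk]
      push_cast
      ring
    rw [h1, ue2]
  -- inverses
  have hinvH : ∀ u : OO, Hf f u → ∃ x, Hf f x ∧ (f : OO) ∣ u * x - 1 := by
    intro u hu
    obtain ⟨a, b, hab⟩ := (uc1 u f).1 (hcop u hu)
    have h1 : (f : OO) ∣ u * a - 1 := ⟨-b, by linear_combination hab⟩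
    exact ⟨a, hinv u a hu h1, h1⟩
  -- (4)
  have r4 : ∀ v : OO, Cos f 1 v ↔ Hf f v := by
    intro v
    constructor
    · rintro ⟨h, hh, hd⟩
      rw [mul_one] at hd
      exact hperd h v hh hd
    · intro hv
      exact ⟨v, hv, by rw [mul_one, sub_self]; exact dvd_zero _⟩
  -- (1)
  have r1 : ∀ u : OO, IsRho f (rhoH f u) := by
    intro u
    refine ⟨fun v x => ?_, fun v => ?_⟩
    · refine Rh_congr f u _ u v ?_ (hepsper v x)
      constructor
      · rintro ⟨h, hh, y, hy⟩
        exact ⟨h, hh, y - x, by linear_combination hy⟩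
      · rintro ⟨h, hh, y, hy⟩
        exact ⟨h, hh, y + x, by linear_combination hy⟩
    · have h1 : Cos f u (-v) ↔ Cos f u v := by
        constructor
        · rintro ⟨h, hh, y, hy⟩
          exact ⟨-h, hnegH h hh, -y, by linear_combination (-1) * hy⟩
        · rintro ⟨h, hh, y, hy⟩
          exact ⟨-h, hnegH h hh, -y, by linear_combination (-1) * hy⟩
      by_cases h2 : Cos f u v
      · rw [Rh_pos f u v h2, Rh_pos f u _ (h1.2 h2), ue3]
        push_cast
        rfl
      · rw [Rh_neg f u v h2, Rh_neg f u _ (fun h3 => h2 (h1.1 h3)), neg_zero]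
  -- (2)
  have r2 : ∀ u a v : OO, Cop u f → (f : OO) ∣ a - u ∨ (f : OO) ∣ a + u → eps a = 1 →
      rhoH f u (a * v) = rhoH f 1 v := by
    intro u a v hu ha hea
    refine Rh_congr f u _ 1 v ?_ (by rw [ue1, hea, one_mul])
    have hcu : IsCoprime (f : OO) u := ((uc1 u f).1 hu).symm
    rw [r4]
    constructor
    · rintro ⟨h, hh, y, hy⟩
      rcases ha with ⟨x, hx⟩ | ⟨x, hx⟩
      · have h1 : (f : OO) ∣ u * (v - h) := ⟨y - x * v, by linear_combination hy - v * hx⟩
        exact hperd h v hh (hcu.dvd_of_dvd_mul_left h1)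
      · have h1 : (f : OO) ∣ u * (-v - h) := ⟨y - x * v, by linear_combination hy - v * hx⟩
        have h2 := hperd h (-v) hh (hcu.dvd_of_dvd_mul_left h1)
        have h3 := hnegH _ h2
        rwa [neg_neg] at h3
    · intro hv
      rcases ha with ⟨x, hx⟩ | ⟨x, hx⟩
      · exact ⟨v, hv, x * v, by linear_combination v * hx⟩
      · exact ⟨-v, hnegH v hv, x * v, by linear_combination v * hx⟩
  -- (3)
  have r3 : ∀ u : OO, Hf f u → rhoH f u = rhoH f 1 := by
    intro u hu
    funext v
    refine Rh_congr f u v 1 v ?_ rfl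
    rw [r4]
    constructor
    · rintro ⟨h, hh, hd⟩
      exact hperd _ v (hmul h u hh hu) hd
    · intro hv
      obtain ⟨x, hx, y, hy⟩ := hinvH u hu
      exact ⟨v * x, hmul v x hv hx, -v * y, by linear_combination (-v) * hy⟩
  refine ⟨r1, r2, r3, r4, ?_⟩
  -- (5)
  intro κ hkper hkcl hk0 w
  by_cases hw : Cop w f
  · set G : OO → Om := fun v => if Cop v f then κ v * rhoH f v w else 0 with hG
    have hGper : ∀ v u : OO, G (v + f * u) = G v := by
      intro v u
      have h1 : Cop (v + f * u) f ↔ Cop v f := uc3 v u f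
      have h2 : rhoH f (v + f * u) w = rhoH f v w := by
        refine Rh_congr f _ w v w ?_ rfl
        constructor
        · rintro ⟨h, hh, y, hy⟩
          exact ⟨h, hh, y + h * u, by linear_combination hy⟩
        · rintro ⟨h, hh, y, hy⟩
          exact ⟨h, hh, y - h * u, by linear_combination hy⟩
      simp only [hG]
      by_cases h3 : Cop v f
      · rw [if_pos h3, if_pos (h1.2 h3), hkper, h2]
      · rw [if_neg h3, if_neg (fun h4 => h3 (h1.1 h4))]
    have hcw : IsCoprime (f : OO) w := ((uc1 w f).1 hw).symm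
    have hsum := (hUSum Om f G hf.pos hGper).2.1 (fun v => w * v) (by
      intro v u
      constructor
      · rintro ⟨x, hx⟩
        exact ⟨w * x, by linear_combination w * hx⟩
      · intro h
        have h1 : (f : OO) ∣ w * (v - u) := by
          rw [mul_sub]
          exact h
        exact hcw.dvd_of_dvd_mul_left h1)
    have hGw : ∀ v : OO, G (w * v) = (if Hf f v then (1 : Om) else 0) * ((eps w : Om) * κ w) := by
      intro v
      have h1 : Cop (w * v) f ↔ Cop v f := by
        rw [uc2]
        exact ⟨fun h => h.2, fun h => ⟨hw, h⟩⟩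
      simp only [hG]
      by_cases h2 : Hf f v
      · have h3 : Cos f (w * v) w := by
          obtain ⟨x, hx, y, hy⟩ := hinvH v h2
          exact ⟨x, hx, -w * y, by linear_combination (-w) * hy⟩
        rw [if_pos (h1.2 (hcop v h2)), if_pos h2, Rh_pos f _ w h3, mul_comm w v, hkcl w v h2]
        ring
      · rw [if_neg h2, zero_mul]
        by_cases h3 : Cop v f
        · have h4 : ¬ Cos f (w * v) w := by
            rintro ⟨h, hh, hd⟩
            apply h2
            have h5 : (f : OO) ∣ w * (1 - h * v) := by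
              have h6 : w * (1 - h * v) = w - h * (w * v) := by ring
              rw [h6]
              exact hd
            have h7 := hcw.dvd_of_dvd_mul_left h5
            have h8 : (f : OO) ∣ h * v - 1 := by
              rw [← dvd_neg, neg_sub]
              exact h7
            exact hinv h v hh h8
          rw [if_pos (h1.2 h3), Rh_neg f _ w h4, mul_zero]
        · rw [if_neg (fun h4 => h3 (h1.1 h4))]
    have e1 : sumO f (fun v => G (w * v)) =
        sumO f (fun v => if Hf f v then (1 : Om) else 0) * ((eps w : Om) * κ w) := by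
      rw [← Rh_sum_mul]
      congr 1
      funext v
      exact hGw v
    rw [← e1, hsum]
  · have h1 : (fun v : OO => if Cop v f then κ v * rhoH f v w else 0) = fun _ => (0 : Om) := by
      funext v
      by_cases h2 : Cop v f
      · have h3 : ¬ Cos f v w := by
          rintro ⟨h, hh, x, hx⟩
          apply hw
          have h4 : w = h * v + f * x := by linear_combination hx
          rw [h4, uc3, uc2]
          exact ⟨hcop h hh, h2⟩
        rw [if_pos h2, Rh_neg f v w h3, mul_zero]
      · rw [if_neg h2]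
    rw [hk0 w hw, mul_zero, mul_zero]
    have h2 := congrArg (sumO f) h1
    rw [Rh_sum_zero] at h2
    exact h2

end Pool.Agent.DI.E8
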