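import Pool.Agent.Lib.DI.E8.Spec

set_option autoImplicit false

/-! # Theorem DI, E8, module Sl: slopes and `E_1` -/

open scoped Pointwise Topology

noncomputable section

namespace Pool.Agent.DI.E8

open Pool.Agent.MuZ Pool.Agent.DI

private theorem Sl_tor (hU : S_UEx) {z : ℂ} (hz : Tor z) (j : ℕ) : Tor ((j : ℂ) * z) := by
  have h1 := hU.2.2.2.2.2.1 (j : OO) z hz
  rwa [map_natCast] at h1

/-- one step over `ℂ` -/
private theorem Sl_step (h3 : S_B3) (h4 : S_B4) (h5 : S_B5) (hA : S_A0) (hU : S_UEx) (z : ℂ)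
    (m : ℕ) (hz : Tor z) (hj : ∀ j : ℕ, 0 < j → j < m → ¬ Lat (j * z)) (j : ℕ) (h0 : 0 < j)
    (hm : j + 1 < m) :
    XC ((j + 1 : ℕ) * z) = io (slp z j) ^ 2 + io (slp z j) + 1 - XC (j * z) - XC z ∧
    EC ((j + 1 : ℕ) * z) = EC (j * z) + EC z + io (slp z j) + 1 / 2 := by
  obtain ⟨a1, a2, -⟩ := hA z hz
  have hz1 : ¬ Lat z := by
    have h := hj 1 one_pos (by omega)
    rwa [Nat.cast_one, one_mul] at h
  by_cases hj1 : j = 1
  · subst hj1
    have hz2 : ¬ Lat (2 * z) := by
      have h := hj 2 two_pos (by omega)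
      rwa [Nat.cast_ofNat] at h
    have hs : io (slp z 1) = (3 * XC z ^ 2 - 2 * XC z - 2 - YC z) / (2 * YC z + XC z) := by
      unfold slp
      rw [if_pos rfl]
      simp only [map_div₀, map_sub, map_mul, map_pow, map_add, map_ofNat, a1, a2]
    obtain ⟨b1, -, b3⟩ := h5 z hz1 hz2 _ hs
    have e : (((1 + 1 : ℕ) : ℂ)) = 2 := by norm_num
    rw [e, b1, b3, Nat.cast_one, one_mul]
    constructor <;> ring
  · obtain ⟨c1, c2, -⟩ := hA (j * z) (Sl_tor hU hz j)
    have hzj : ¬ Lat (j * z) := hj j h0 (by omega)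
    have hne : XC (j * z) ≠ XC z := by
      intro h
      rcases (h3.1 (j * z) z hzj hz1).1 h with h6 | h6
      · have e : (j : ℂ) * z - z = ((j - 1 : ℕ) : ℂ) * z := by
          rw [Nat.cast_sub h0, Nat.cast_one]
          ring
        rw [e] at h6
        exact hj (j - 1) (by omega) (by omega) h6
      · have e : (j : ℂ) * z + z = ((j + 1 : ℕ) : ℂ) * z := by
          push_cast
          ring
        rw [e] at h6
        exact hj (j + 1) (by omega) hm h6
    have hs : io (slp z j) = (YC (j * z) - YC z) / (XC (j * z) - XC z) := by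
      unfold slp
      rw [if_neg hj1]
      simp only [map_div₀, map_sub, a1, a2, c1, c2]
    obtain ⟨b1, -, b3⟩ := h4 (j * z) z hzj hz1 hne _ hs
    have e : (((j + 1 : ℕ) : ℂ)) * z = j * z + z := by
      push_cast
      ring
    rw [e]
    exact ⟨b1, b3⟩

/-- Slopes. -/
theorem tSl : S_Sl := by
  intro h2 h3 h4 h5 hA hU z m hz hm3 hj hm
  have hstep := Sl_step h3 h4 h5 hA hU z m hz hj
  obtain ⟨a1, a2, a3⟩ := hA z hz
  have hind : ∀ j : ℕ, 1 ≤ j → j < m →
      EC (j * z) = j * EC z + ∑ i ∈ Finset.Ico 1 j, (io (slp z i) + 1 / 2) := by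
    intro j h1
    induction j, h1 using Nat.le_induction with
    | base =>
      intro _
      simp
    | succ j h1 ih =>
      intro h6
      rw [(hstep j h1 h6).2, ih (by omega), Finset.sum_Ico_succ_top h1]
      push_cast
      ring
  constructor
  · apply io_inj
    have h6 := hind (m - 1) (by omega) (by omega)
    obtain ⟨v, hv⟩ := hm
    have h7 : EC ((m - 1 : ℕ) * z) = -EC z := by
      have e : (((m - 1 : ℕ) : ℂ)) * z = -z + toC v := by
        rw [← hv, Nat.cast_sub (by omega), Nat.cast_one]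
        ring
      rw [e, (h2.1 (-z) v).2.2, (h2.2 z).2.2]
    rw [h7, Finset.sum_add_distrib, Finset.sum_const, Nat.card_Ico, nsmul_eq_mul] at h6
    have h8 : ((m - 1 - 1 : ℕ) : ℂ) = (m : ℂ) - 2 := by
      rw [Nat.cast_sub (by omega), Nat.cast_sub (by omega)]
      push_cast
      ring
    have h9 : ((m - 1 : ℕ) : ℂ) = (m : ℂ) - 1 := by
      rw [Nat.cast_sub (by omega)]
      push_cast
      ring
    rw [h8, h9] at h6
    simp only [map_mul, map_add, map_sub, map_sum, map_natCast, map_one, map_div₀, map_ofNat, a3]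
    linear_combination -h6
  · intro j hj1
    rw [Finset.mem_Ico] at hj1
    apply io_inj
    obtain ⟨b1, -, -⟩ := hA (j * z) (Sl_tor hU hz j)
    obtain ⟨c1, -, -⟩ := hA ((j + 1 : ℕ) * z) (Sl_tor hU hz (j + 1))
    rw [c1, (hstep j (by omega) (by omega)).1]
    simp only [map_add, map_sub, map_pow, map_one, a1, b1]

end Pool.Agent.DI.E8
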