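import Pool.Agent.Lib.DI.E8.Spec

/-!
# Theorem DI, part E8: finite sums (Chinese remainder theorem, even functions)
-/

set_option autoImplicit false

open scoped Pointwise Topology

noncomputable section

namespace Pool.Agent.DI.E8

open Pool.Agent.MuZ Pool.Agent.DI

private theorem Su_sum_mul (m : ℕ) (F : OO → Om) (c : Om) :
    sumO m (fun v => F v * c) = sumO m F * c := by
  unfold sumO
  rw [Finset.sum_mul]
  refine Finset.sum_congr rfl fun a _ => ?_
  rw [Finset.sum_mul]

private theorem Su_mul_sum (m : ℕ) (F : OO → Om) (c : Om) :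
    sumO m (fun v => c * F v) = c * sumO m F := by
  unfold sumO
  rw [Finset.mul_sum]
  refine Finset.sum_congr rfl fun a _ => ?_
  rw [Finset.mul_sum]

private theorem Su_sum_add (m : ℕ) (F G : OO → Om) :
    sumO m (fun v => F v + G v) = sumO m F + sumO m G := by
  unfold sumO
  rw [← Finset.sum_add_distrib]
  refine Finset.sum_congr rfl fun a _ => ?_
  rw [Finset.sum_add_distrib]

private theorem Su_re (v u : OO) (n : ℕ) : (v + (n : OO) * u).re = v.re + n * u.re := by
  have h1 : (v + (n : OO) * u).re = v.re + ((n : OO) * u).re := rfl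
  have h2 : ((n : OO) * u).re = (n : OO).re * u.re + -2 * (n : OO).im * u.im :=
    QuadraticAlgebra.re_mul _ _
  rw [h1, h2, QuadraticAlgebra.re_natCast, QuadraticAlgebra.im_natCast]
  ring

private theorem Su_im (v u : OO) (n : ℕ) : (v + (n : OO) * u).im = v.im + n * u.im := by
  have h1 : (v + (n : OO) * u).im = v.im + ((n : OO) * u).im := rfl
  have h2 : ((n : OO) * u).im = (n : OO).re * u.im + (n : OO).im * u.re + 1 * (n : OO).im * u.im :=
    QuadraticAlgebra.im_mul _ _
  rw [h1, h2, QuadraticAlgebra.re_natCast, QuadraticAlgebra.im_natCast]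
  ring

private theorem Su_dvd (n : ℕ) (v : OO) : (n : OO) ∣ v ↔ (n : ℤ) ∣ v.re ∧ (n : ℤ) ∣ v.im := by
  constructor
  · rintro ⟨u, hu⟩
    have h1 := Su_re 0 u n
    have h2 := Su_im 0 u n
    rw [zero_add, ← hu] at h1 h2
    exact ⟨⟨u.re, h1.trans (zero_add _)⟩, ⟨u.im, h2.trans (zero_add _)⟩⟩
  · rintro ⟨⟨x, hx⟩, ⟨y, hy⟩⟩
    refine ⟨⟨x, y⟩, ?_⟩
    have h1 := Su_re 0 ⟨x, y⟩ n
    have h2 := Su_im 0 ⟨x, y⟩ n
    rw [zero_add] at h1 h2
    apply QuadraticAlgebra.ext
    · rw [h1, hx]
      exact (zero_add _).symm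
    · rw [h2, hy]
      exact (zero_add _).symm

private theorem Su_neg_emod (n : ℕ) (a : ℤ) (hn : 0 < n) :
    (a % n = 0 → (-a) % n = 0) ∧ (a % n ≠ 0 → (-a) % n = n - a % n) := by
  have hn' : (0 : ℤ) < n := by exact_mod_cast hn
  have h0 := Int.emod_nonneg a hn'.ne'
  have h1 := Int.emod_lt_of_pos a hn'
  have h2 := Int.emod_add_mul_ediv a n
  constructor
  · intro h
    exact Int.emod_eq_zero_of_dvd ((dvd_neg).2 (Int.dvd_of_emod_eq_zero h))
  · intro h
    have h3 : -a = (n - a % n) + n * (-(a / n) - 1) := by linear_combination h2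
    rw [h3, Int.add_mul_emod_self_left]
    refine Int.emod_eq_of_lt (by omega) ?_
    have h4 : 0 < a % n := lt_of_le_of_ne h0 (Ne.symm h)
    omega

private def Su_Q (n : ℕ) (v : OO) : Prop :=
  (0 < v.re % n ∧ 2 * (v.re % n) < n) ∨ (v.re % n = 0 ∧ 0 < v.im % n ∧ 2 * (v.im % n) < n)

private theorem Su_Q_per (n : ℕ) (v u : OO) : Su_Q n (v + n * u) ↔ Su_Q n v := by
  unfold Su_Q
  rw [Su_re, Su_im, Int.add_mul_emod_self_left, Int.add_mul_emod_self_left]

private theorem Su_Q_dvd (n : ℕ) (v : OO) (h : (n : OO) ∣ v) : ¬ Su_Q n v := by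
  obtain ⟨h1, h2⟩ := (Su_dvd n v).1 h
  have h3 := Int.emod_eq_zero_of_dvd h1
  have h4 := Int.emod_eq_zero_of_dvd h2
  rintro (⟨h5, -⟩ | ⟨-, h5, -⟩)
  · omega
  · omega

private theorem Su_Q_neg (n : ℕ) (hn : Odd n) (v : OO) (h : ¬ (n : OO) ∣ v) :
    Su_Q n (-v) ↔ ¬ Su_Q n v := by
  have hn0 : 0 < n := hn.pos
  obtain ⟨k, hk⟩ := hn
  have hn' : (0 : ℤ) < n := by exact_mod_cast hn0
  have hr0 := Int.emod_nonneg v.re hn'.ne'
  have hi0 := Int.emod_nonneg v.im hn'.ne'
  have hr1 := Int.emod_lt_of_pos v.re hn'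
  have hi1 := Int.emod_lt_of_pos v.im hn'
  have e1 : (-v).re = -v.re := rfl
  have e2 : (-v).im = -v.im := rfl
  obtain ⟨r1, r2⟩ := Su_neg_emod n v.re hn0
  obtain ⟨i1, i2⟩ := Su_neg_emod n v.im hn0
  have hkk : (n : ℤ) = 2 * k + 1 := by exact_mod_cast hk
  unfold Su_Q
  rw [e1, e2]
  by_cases h1 : v.re % n = 0
  · have h2 : v.im % n ≠ 0 := fun h3 =>
      h ((Su_dvd n v).2 ⟨Int.dvd_of_emod_eq_zero h1, Int.dvd_of_emod_eq_zero h3⟩)
    rw [r1 h1, i2 h2, h1]
    omega
  · rw [r2 h1]
    omega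

theorem tSu : S_Su := by
  intro hUSum
  classical
  refine ⟨?_, ?_⟩
  · intro f n A B hf hn hcop hA hB
    have hH : ∀ v u : OO, A (v + (f * n : ℕ) * u) * B (v + (f * n : ℕ) * u) = A v * B v := by
      intro v u
      have h1 : A (v + (f * n : ℕ) * u) = A v := by
        rw [show v + ((f * n : ℕ) : OO) * u = v + f * (n * u) by push_cast; ring, hA]
      have h2 : B (v + (f * n : ℕ) * u) = B v := by
        rw [show v + ((f * n : ℕ) : OO) * u = v + n * (f * u) by push_cast; ring, hB]
      rw [h1, h2]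
    rw [(hUSum Om f A hf hA).2.2.1 n (fun v => A v * B v) hn hH, ← Su_sum_mul]
    have hco : IsCoprime (n : OO) (f : OO) := by
      have h1 := (Nat.isCoprime_iff_coprime.2 hcop.symm).map (Int.castRingHom OO)
      simpa using h1
    congr 1
    funext v
    have h1 : (fun u : OO => A (v + f * u) * B (v + f * u)) = fun u => A v * B (v + f * u) := by
      funext u
      rw [hA]
    have h2 := (hUSum Om n B hn hB).2.1 (fun u => v + f * u) (by
      intro u u'
      have h3 : v + (f : OO) * u - (v + f * u') = f * (u - u') := by ring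
      rw [h3]
      exact ⟨fun h => h.mul_left _, fun h => hco.dvd_of_dvd_mul_left h⟩)
    rw [h1, Su_mul_sum, h2]
  · intro P n B hP hn hB hBe hV
    have hPp : P.IsPrime := hP
    have hn0 : 0 < n := hn.pos
    set U : OO → Om := fun v => if Su_Q n v then B v else 0 with hU
    have hUper : ∀ v u : OO, U (v + n * u) = U v := by
      intro v u
      simp only [hU, Su_Q_per, hB]
    have hdec : B = fun v => ((if (n : OO) ∣ v then B 0 else 0) + U v) + U (-v) := by
      funext v
      simp only [hU]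
      by_cases h : (n : OO) ∣ v
      · rw [if_pos h, if_neg (Su_Q_dvd n v h), if_neg (Su_Q_dvd n (-v) ((dvd_neg).2 h)), add_zero,
          add_zero]
        obtain ⟨u, hu⟩ := h
        rw [hu, ← zero_add ((n : OO) * u), hB]
      · rw [if_neg h, zero_add]
        have h1 := Su_Q_neg n hn v h
        by_cases h2 : Su_Q n v
        · rw [if_pos h2, if_neg (fun h3 => (h1.1 h3) h2), add_zero]
        · rw [if_neg h2, if_pos (h1.2 h2), zero_add, hBe]
    have hneg : sumO n (fun v => U (-v)) = sumO n U :=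
      (hUSum Om n U hn0 hUper).2.1 (fun v => -v) (by
        intro v u
        have h3 : -v - -u = -(v - u) := by ring
        rw [h3, dvd_neg])
    have hz : sumO n (fun v : OO => if (n : OO) ∣ v then B 0 else 0) = B 0 := by
      unfold sumO
      beta_reduce
      rw [Finset.sum_eq_single 0, Finset.sum_eq_single 0]
      · rw [if_pos]
        rw [Su_dvd]
        exact ⟨dvd_zero _, dvd_zero _⟩
      · intro b hb hb0
        rw [if_neg]
        rw [Su_dvd]
        rintro ⟨-, h⟩
        have h1 : (n : ℤ) ∣ (b : ℤ) := h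
        have h2 := Nat.le_of_dvd (Nat.pos_of_ne_zero hb0) (Int.natCast_dvd_natCast.1 h1)
        have h3 := Finset.mem_range.1 hb
        omega
      · intro h
        exact absurd (Finset.mem_range.2 hn0) h
      · intro a ha ha0
        refine Finset.sum_eq_zero fun b _ => ?_
        rw [if_neg]
        rw [Su_dvd]
        rintro ⟨h, -⟩
        have h1 : (n : ℤ) ∣ (a : ℤ) := h
        have h2 := Nat.le_of_dvd (Nat.pos_of_ne_zero ha0) (Int.natCast_dvd_natCast.1 h1)
        have h3 := Finset.mem_range.1 ha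
        omega
      · intro h
        exact absurd (Finset.mem_range.2 hn0) h
    refine ⟨sumO n U, ?_, ?_⟩
    · unfold sumO
      refine VP.sum _ _ fun a _ => VP.sum _ _ fun b _ => ?_
      simp only [hU]
      by_cases h : Su_Q n ⟨a, b⟩
      · rw [if_pos h]
        exact hV _
      · rw [if_neg h]
        exact VP.zero
    · have h1 : sumO n B = sumO n (fun v => ((if (n : OO) ∣ v then B 0 else 0) + U v) + U (-v)) :=
        congrArg (sumO n) hdec
      rw [h1, Su_sum_add, Su_sum_add, hneg, hz]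
      ring

end Pool.Agent.DI.E8
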