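import Pool.Agent.Lib.DI.E8.Spec

set_option autoImplicit false

/-! # Theorem DI, E8, module Tr: transformation formulas for `eta` -/

open scoped Pointwise Topology

noncomputable section

namespace Pool.Agent.DI.E8

open Pool.Agent.MuZ Pool.Agent.DI

private theorem Tr_rho {f : ℕ} {ρ : OO → Om} (hρ : IsRho f ρ) (a : OO) :
    IsRho f (fun v => ρ (a * v)) where
  per := by
    intro v u
    have e : a * (v + f * u) = a * v + f * (a * u) := by ring
    rw [e, hρ.per]
  odd := by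
    intro v
    rw [mul_neg, hρ.odd]

private theorem Tr_io {f : ℕ} {ρ : OO → Om} (hρ : IsRho f ρ) :
    IsRho f (fun v => io (ρ v)) where
  per := fun v u => by rw [hρ.per]
  odd := fun v => by rw [hρ.odd, map_neg]

private theorem Tr_eta (hE : S_E11) {f : ℕ} (hf : Odd f) (h7 : 7 ∣ f) {ρ : OO → Om}
    (hρ : IsRho f ρ) (r : ℚ) : io (eta ρ r) * OmC = hC (fun v => io (ρ v)) r := by
  have h1 := (hE f hf h7 ρ hρ r.num r.den r.den_pos).1
  rwa [Rat.num_div_den] at h1

private theorem Tr_d {f : ℕ} (h7 : 7 ∣ f) {a b c d : ℤ} (hG : G0 (7 * f ^ 2) a b c d) :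
    d ≠ 0 := by
  rintro rfl
  obtain ⟨h1, h2⟩ := hG
  have h3 : (7 : ℤ) ∣ c := (Dvd.intro _ rfl).trans h2
  obtain ⟨e, rfl⟩ := h3
  have h4 : (1 : ℤ) = 7 * (-(b * e)) := by linear_combination -h1
  have h5 : (7 : ℤ) ∣ 1 := ⟨_, h4⟩
  norm_num at h5

/-- Transformation formulas. -/
theorem tTr : S_Tr := by
  intro hB hC1 hC4 hC5 hE hU f hf h7 ρ hρ
  have hO : OmC ≠ 0 := hB.1
  have hper : ∀ ρ : OO → Om, IsRho f ρ → ∀ (r : ℚ) (k : ℤ), eta ρ (r + k) = eta ρ r := by
    intro ρ hρ r k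
    have h1 : ∀ r : ℚ, eta ρ (r + 1) = eta ρ r := by
      intro r
      apply io_inj
      apply mul_right_cancel₀ hO
      rw [Tr_eta hE hf h7 hρ, Tr_eta hE hf h7 hρ]
      exact (hC5 f hf h7 _ (Tr_io hρ) r).1
    induction k using Int.induction_on with
    | zero => rw [Int.cast_zero, add_zero]
    | succ k ih =>
      have e : r + ((k + 1 : ℤ) : ℚ) = r + ((k : ℤ) : ℚ) + 1 := by
        push_cast
        ring
      rw [e, h1, ih]
    | pred k ih =>
      have h2 := h1 (r + ((-k - 1 : ℤ) : ℚ))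
      have e : r + ((-k - 1 : ℤ) : ℚ) + 1 = r + ((-k : ℤ) : ℚ) := by
        push_cast
        ring
      rw [e, ih] at h2
      exact h2.symm
  have htr : ∀ a b c d : ℤ, G0 (7 * f ^ 2) a b c d → ∀ r : ℚ, c * r + d ≠ 0 →
      eta ρ ((a * r + b) / (c * r + d)) = eps d * eta (fun v => ρ (d * v)) r +
        (eta ρ (b / d) - eps d * eta (fun v => ρ (d * v)) 0) := by
    intro a b c d hG r hr
    obtain ⟨Φ, -, hΦ⟩ := hC1 f hf h7 _ (Tr_io hρ) a b c d hG
    have h1 := hΦ r hr
    have hd : (d : ℚ) ≠ 0 := by exact_mod_cast Tr_d h7 hG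
    have h2 := hΦ 0 (by rwa [mul_zero, zero_add])
    rw [mul_zero, mul_zero, zero_add, zero_add] at h2
    have g1 := Tr_eta hE hf h7 hρ ((a * r + b) / (c * r + d))
    have g2 := Tr_eta hE hf h7 hρ (b / d)
    have g3 := Tr_eta hE hf h7 (Tr_rho hρ d) r
    have g4 := Tr_eta hE hf h7 (Tr_rho hρ d) 0
    apply io_inj
    apply mul_right_cancel₀ hO
    simp only [map_add, map_sub, map_mul, map_intCast]
    linear_combination g1 + h1 - g2 - h2 - (eps d : ℂ) * g3 + (eps d : ℂ) * g4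
  refine ⟨htr, hper ρ hρ, ?_, ?_, ?_⟩
  · intro r
    have h1 := hC4 f hf h7 _ (Tr_io hρ) r
    have g1 := Tr_eta hE hf h7 hρ (r / 2)
    have g2 := Tr_eta hE hf h7 hρ ((r + 1) / 2)
    have g3 := Tr_eta hE hf h7 (Tr_rho hρ 2) (2 * r)
    have g4 := Tr_eta hE hf h7 (Tr_rho hρ pO) r
    have g5 := Tr_eta hE hf h7 (Tr_rho hρ pbO) r
    have k1 : io wO = wC := io_wO
    have k2 : io wbO = wbC := by
      unfold wbO wbC
      rw [map_sub, map_one, io_wO]
    apply io_inj
    apply mul_right_cancel₀ hO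
    simp only [map_add, map_mul, k1, k2]
    linear_combination g1 + g2 + g3 + h1 - wbC * g4 - wC * g5
  · intro a b c d hG k hk
    have h1 := htr a b c d hG k (by exact_mod_cast hk)
    have h2 := hper _ (Tr_rho hρ d) 0 k
    rw [zero_add] at h2
    rw [h1, h2]
    ring
  · intro a b c d hG hd z hz
    obtain ⟨Φ, hΦ1, hΦ⟩ := hC1 f hf h7 _ (Tr_io hρ) a b c d hG
    have h1 := hΦ1 z hz
    have hd0 : (d : ℚ) ≠ 0 := by exact_mod_cast Tr_d h7 hG
    have h2 := hΦ 0 (by rwa [mul_zero, zero_add])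
    rw [mul_zero, mul_zero, zero_add, zero_add] at h2
    have he : eps (d : OO) = 1 := by
      rw [hU.2.2.2.2.1 d]
      have h3 : (7 : ℤ) ∣ d - 1 := (Dvd.intro _ rfl).trans hd
      have h4 : d % (7 : ℕ) = 1 % (7 : ℕ) := by
        push_cast
        omega
      rw [jacobiSym.mod_left' h4, jacobiSym.one_left]
    have hv : (fun v => ρ ((d : OO) * v)) = ρ := by
      funext v
      obtain ⟨t, ht⟩ := hd
      have e : (d : OO) * v = v + f * (7 * f * t * v) := by
        have h5 : (d : OO) = 1 + 7 * (f : OO) ^ 2 * (t : OO) := by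
          have h6 : d = 1 + 7 * (f : ℤ) ^ 2 * t := by linarith
          rw [h6]
          push_cast
          ring
        rw [h5]
        ring
      rw [e, hρ.per]
    have hv' : (fun v => io (ρ ((d : OO) * v))) = fun v => io (ρ v) := by
      funext v
      exact congrArg io (congrFun hv v)
    simp only [he, Int.cast_one, one_mul] at h1 h2
    rw [hv'] at h1 h2
    have g2 := Tr_eta hE hf h7 hρ (b / d)
    have g4 := Tr_eta hE hf h7 hρ 0
    rw [map_sub]
    linear_combination h1 - h2 - g2 + g4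

end Pool.Agent.DI.E8
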