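import Pool.Agent.Lib.DI.E8.Main
import Pool.Agent.Lib.DI.E8.Sl
import Pool.Agent.Lib.DI.E8.Or
import Pool.Agent.Lib.DI.E8.EG
import Pool.Agent.Lib.DI.E8.EI
import Pool.Agent.Lib.DI.E8.E11
import Pool.Agent.Lib.DI.E8.Li
import Pool.Agent.Lib.DI.E8.Tr
import Pool.Agent.Lib.DI.E8.Ch
import Pool.Agent.Lib.DI.E8.E12
import Pool.Agent.Lib.DI.E8.Ga
import Pool.Agent.Lib.DI.E8.On
import Pool.Agent.Lib.DI.E8.Su
import Pool.Agent.Lib.DI.E8.In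
import Pool.Agent.Lib.DI.E8.Ps
import Pool.Agent.Lib.DI.E8.E13
import Pool.Agent.Lib.DI.E8.Rh
import Pool.Agent.Lib.DI.E8.La
import Pool.Agent.Lib.DI.E8.E14
import Pool.Agent.Lib.DI.Util.UNm
import Pool.Agent.Lib.DI.Util.UCop
import Pool.Agent.Lib.DI.Util.UEps
import Pool.Agent.Lib.DI.Util.USum
import Pool.Agent.Lib.DI.Util.UEx
import Pool.Agent.Lib.DI.Util.UHN

/-!
# Theorem DI, parts E7, E8: the final theorems `tE10`, `tE11`, `tE12`, `tE13`, `tE14`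
-/

set_option autoImplicit false

noncomputable section

namespace Pool.Agent.DI

open Pool.Agent.MuZ Pool.Agent.DI.E8

/-- The modules of E7 and E8. -/
theorem e8Mods : Mods where
  Sl := tSl
  Or := tOr
  EG := tEG
  EI := tEI
  E11 := E8.tE11
  Li := tLi
  Tr := tTr
  Ch := tCh
  E12 := E8.tE12
  Ga := tGa
  On := tOn
  Su := tSu
  In := tIn
  Ps := tPs
  E13 := E8.tE13
  Rh := tRh
  La := tLa
  E14 := E8.tE14

/-- `S_E10` to `S_E14` from the other parts. -/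
theorem tE10_14 (B0 : S_B0) (B2 : S_B2) (B3 : S_B3) (B4 : S_B4) (B5 : S_B5) (A0 : S_A0) (A2 : S_A2)
    (C1 : S_C1) (C3 : S_C3) (C4 : S_C4) (C5 : S_C5) (D1 : S_D1) (E1 : S_E1) (E5 : S_E5) (E6 : S_E6)
    (E8 : S_E8) : S_E10 ∧ S_E11 ∧ S_E12 ∧ S_E13 ∧ S_E14 :=
  all ⟨B0, B2, B3, B4, B5, A0, A2, C1, C3, C4, C5, D1, E1, E5, E6, E8, tUNm, tUCop, tUEps, tUSum,
    tUEx, tUHN⟩ e8Mods

end Pool.Agent.DI
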