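import Pool.Agent.Lib.DI.E8.Spec

/-!
# Theorem DI, part E8: integrality of `η` (`S_In`)
-/

set_option autoImplicit false

open scoped Pointwise Topology

noncomputable section

namespace Pool.Agent.DI.E8

open Pool.Agent.MuZ Pool.Agent.DI

private theorem ofC_neg (y : ℂ) : ofC (-y) = -ofC y := by
  by_cases h : ∃ x : Om, io x = y
  · obtain ⟨x, rfl⟩ := h
    rw [← map_neg, ofC_io, ofC_io]
  · have h' : ¬ ∃ x : Om, io x = -y := by
      rintro ⟨x, hx⟩
      exact h ⟨-x, by rw [map_neg, hx, neg_neg]⟩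
    unfold ofC
    rw [dif_neg h, dif_neg h', neg_zero]

private theorem nmul (m : ℕ) (u : OO) : (m : OO) * u = ⟨m * u.re, m * u.im⟩ := by
  apply QuadraticAlgebra.ext
  · rw [QuadraticAlgebra.re_mul, QuadraticAlgebra.re_natCast, QuadraticAlgebra.im_natCast]
    simp
  · rw [QuadraticAlgebra.im_mul, QuadraticAlgebra.re_natCast, QuadraticAlgebra.im_natCast]
    simp

private theorem Nm_add (n : ℕ) (v u : OO) : ∃ t : ℤ, Nm (v + n * u) = Nm v + n * t := by
  refine ⟨2 * v.re * u.re + n * u.re ^ 2 + v.re * u.im + v.im * u.re + n * u.re * u.im +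
    4 * v.im * u.im + 2 * n * u.im ^ 2, ?_⟩
  have h1 : (v + n * u).re = v.re + n * u.re := by
    rw [QuadraticAlgebra.re_add, nmul]
  have h2 : (v + n * u).im = v.im + n * u.im := by
    rw [QuadraticAlgebra.im_add, nmul]
  unfold Nm
  rw [h1, h2]
  ring

private theorem Nm_neg (v : OO) : Nm (-v) = Nm v := by
  unfold Nm
  rw [QuadraticAlgebra.re_neg, QuadraticAlgebra.im_neg]
  ring

private theorem sumO_add (m : ℕ) (F G : OO → Om) :
    sumO m (fun v => F v + G v) = sumO m F + sumO m G := by
  simp only [sumO, Finset.sum_add_distrib]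

private theorem sumO_sub (m : ℕ) (F G : OO → Om) :
    sumO m (fun v => F v - G v) = sumO m F - sumO m G := by
  simp only [sumO, Finset.sum_sub_distrib]

private theorem sumO_mul (m : ℕ) (c : Om) (F : OO → Om) :
    sumO m (fun v => c * F v) = c * sumO m F := by
  simp only [sumO, Finset.mul_sum]

private theorem sumO_vp {P : Ideal ZZ} [P.IsPrime] (m : ℕ) (F : OO → Om) (h : ∀ v, VP P (F v)) :
    VP P (sumO m F) :=
  VP.sum _ _ fun _ _ => VP.sum _ _ fun _ _ => h _

private theorem vp_zpow {P : Ideal ZZ} [P.IsPrime] {ζ : Om} (h : VP P ζ) (h' : VP P ζ⁻¹) (k : ℤ) :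
    VP P (ζ ^ k) := by
  rcases Int.eq_nat_or_neg k with ⟨j, rfl | rfl⟩
  · rw [zpow_natCast]
    exact h.pow j
  · rw [zpow_neg, zpow_natCast, ← inv_pow]
    exact h'.pow j

/-- The part where `ε = 1`. -/
private def pl (G : OO → Om) (v : OO) : Om := if eps v = 1 then G v else 0

private theorem eps_cases (hE : S_UEps) (v : OO) : eps v = 0 ∨ eps v = 1 ∨ eps v = -1 := by
  obtain ⟨-, -, -, -, -, -, -, -, -, h0, h1⟩ := hE
  by_cases h : Cop v 7
  · exact Or.inr (h1 v h)
  · exact Or.inl (h0 v h)

private theorem eps_neg (hE : S_UEps) (v : OO) : eps (-v) = -eps v := hE.2.2.1 v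

private theorem eps_zero (hE : S_UEps) : eps 0 = 0 := by
  have h := eps_neg hE 0
  rw [neg_zero] at h
  omega

private theorem eps_per (hE : S_UEps) {m : ℕ} (hm : 7 ∣ m) (v u : OO) :
    eps (v + m * u) = eps v := by
  obtain ⟨k, rfl⟩ := hm
  rw [← hE.2.1 v (k * u)]
  congr 1
  push_cast
  ring

private theorem split (hE : S_UEps) (hS : S_USum) {m : ℕ} (hm : 7 ∣ m) (hm0 : 0 < m) (G : OO → Om)
    (per : ∀ v u : OO, G (v + m * u) = G v) (even : ∀ v, G (-v) = G v)
    (zero : ∀ v, eps v = 0 → G v = 0) : sumO m G = 2 * sumO m (pl G) := by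
  have h1 : ∀ v, G v = pl G v + pl G (-v) := by
    intro v
    unfold pl
    rw [eps_neg hE]
    rcases eps_cases hE v with h | h | h
    · rw [h, zero v h]
      simp
    · rw [h]
      simp
    · rw [h]
      simp [even v]
  have hper : ∀ v u : OO, pl G (v + m * u) = pl G v := by
    intro v u
    unfold pl
    rw [eps_per hE hm, per]
  have h2 := (hS Om m (pl G) hm0 hper).2.1 (fun v => -v) (fun v u => by
    rw [show -v - -u = -(v - u) by ring, dvd_neg])
  calc sumO m G = sumO m (fun v => pl G v + pl G (-v)) := by rw [← funext h1]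
    _ = sumO m (pl G) + sumO m (fun v => pl G (-v)) := sumO_add _ _ _
    _ = 2 * sumO m (pl G) := by rw [h2]; ring

theorem tIn : S_In := by
  intro hB2 hA2 hE10 hE11 hN hC hE hS hX hSu f hf h7 κ per even zero int b n hn hco P hP h2
  haveI : P.IsPrime := hP.1
  have hn0 : 0 < n := hn.pos
  have hf0 : 0 < f := hf.pos
  have hm : Odd (f * n) := hf.mul hn
  have hm0 : 0 < f * n := hm.pos
  have h7m : 7 ∣ f * n := h7.mul_right n
  -- the root of unity
  obtain ⟨-, hζ⟩ := hA2 n hn0
  set ζ := zet n with hζd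
  have hζn : ζ ^ n = 1 := hζ.pow_eq_one
  have hζ0 : ζ ≠ 0 := by
    rintro h
    rw [h, zero_pow hn0.ne'] at hζn
    exact zero_ne_one hζn
  have hζV : VP P ζ := VP.integral (IsIntegral.of_pow hn0 (by rw [hζn]; exact isIntegral_one))
  have hζV' : VP P ζ⁻¹ := VP.integral (IsIntegral.of_pow hn0 (by
    rw [inv_pow, hζn, inv_one]; exact isIntegral_one))
  -- eps zero gives kappa zero
  have hzero : ∀ v, eps v = 0 → κ v = 0 := by
    intro v hv
    apply zero
    intro hc
    obtain ⟨k, rfl⟩ := h7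
    have h3 : Cop v 7 := ((hC.2.2.2.1 v 7 k).1 hc).1
    rcases hE.2.2.2.2.2.2.2.2.2.2 v h3 with h | h <;> omega
  -- the functions
  set B : OO → Om := fun v => ζ ^ (b * Nm v) with hBd
  have hBper : ∀ v u : OO, B (v + n * u) = B v := by
    intro v u
    obtain ⟨t, ht⟩ := Nm_add n v u
    simp only [hBd]
    rw [ht, mul_add, zpow_add₀ hζ0, show b * ((n : ℤ) * t) = (n : ℤ) * (b * t) by ring,
      zpow_mul ζ (n : ℤ), zpow_natCast, hζn, one_zpow, mul_one]
  have hBeven : ∀ v : OO, B (-v) = B v := by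
    intro v
    simp only [hBd]
    rw [Nm_neg]
  have hBV : ∀ v, VP P (B v) := fun v => vp_zpow hζV hζV' _
  have hB0 : B 0 = 1 := by
    simp only [hBd]
    have : Nm 0 = 0 := by
      unfold Nm
      simp
    rw [this, mul_zero, zpow_zero]
  set F : OO → Om := fun v => κ v * B v with hFd
  have hFper : ∀ v u : OO, F (v + (f * n : ℕ) * u) = F v := by
    intro v u
    simp only [hFd]
    have h3 : v + ((f * n : ℕ) : OO) * u = v + f * (n * u) := by
      push_cast
      ring
    have h4 : v + ((f * n : ℕ) : OO) * u = v + n * (f * u) := by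
      push_cast
      ring
    have h5 : κ (v + ((f * n : ℕ) : OO) * u) = κ v := by rw [h3, per]
    have h6 : B (v + ((f * n : ℕ) : OO) * u) = B v := by rw [h4, hBper]
    rw [h5, h6]
  have hFeven : ∀ v, F (-v) = F v := by
    intro v
    simp only [hFd]
    rw [even, hBeven]
  have hFzero : ∀ v, eps v = 0 → F v = 0 := by
    intro v hv
    simp only [hFd]
    rw [hzero v hv, zero_mul]
  have hFV : ∀ v, VP P (F v) := fun v => (VP.integral (int v)).mul (hBV v)
  set e : OO → Om := fun v => eO (toC v / (f * n : ℕ)) with hed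
  have heper : ∀ v u : OO, e (v + (f * n : ℕ) * u) = e v := by
    intro v u
    simp only [hed]
    have h3 : toC (v + ((f * n : ℕ) : OO) * u) / ((f * n : ℕ) : ℂ) =
        toC v / ((f * n : ℕ) : ℂ) + toC u := by
      have h4 : ((f * n : ℕ) : ℂ) ≠ 0 := by exact_mod_cast hm0.ne'
      rw [map_add, map_mul, map_natCast]
      field_simp
    rw [h3]
    unfold eO
    rw [(hB2.1 _ u).2.2]
  have hodd : ∀ v, e (-v) = -e v := by
    intro v
    simp only [hed]
    rw [map_neg, neg_div]
    unfold eO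
    rw [(hB2.2 _).2.2, ofC_neg]
  -- the sum
  have h11 := (hE11 f hf h7 (fun v => (eps v : Om) * κ v)
    ⟨fun v u => by
      rw [eps_per hE h7, per],
    fun v => by
      rw [eps_neg hE, even]
      push_cast
      ring⟩ b n hn0).2
  have hsum : sumO (f * n) (fun v => (eps v : Om) * κ v * zet n ^ (b * Nm v) *
      eO (toC v / (f * n : ℕ))) = 2 * sumO (f * n) (pl fun v => F v * e v) := by
    have h3 := split hE hS h7m hm0 (fun v => (eps v : Om) * (F v * e v)) (fun v u => by
      rw [eps_per hE h7m, hFper, heper]) (fun v => by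
      rw [eps_neg hE, hFeven, hodd]
      push_cast
      ring) (fun v hv => by
      rw [hv]
      simp)
    have h4 : (fun v => (eps v : Om) * κ v * zet n ^ (b * Nm v) * eO (toC v / (f * n : ℕ))) =
        fun v => (eps v : Om) * (F v * e v) := by
      funext v
      simp only [hFd, hBd, hed]
      ring
    have h5 : pl (fun v => (eps v : Om) * (F v * e v)) = pl fun v => F v * e v := by
      funext v
      simp only [pl]
      by_cases h : eps v = 1
      · rw [if_pos h, if_pos h, h]
        push_cast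
        ring
      · rw [if_neg h, if_neg h]
    rw [h4, h3, h5]
  -- W
  set W : OO → Om := pl fun v => F v * (e v + 1 / 2) with hWd
  have hWV : ∀ v, VP P (W v) := by
    intro v
    simp only [hWd, pl]
    by_cases h : eps v = 1
    · rw [if_pos h]
      refine (hFV v).mul ((hE10 (f * n) v hm ?_).2 P hP h2)
      rw [hX.2.2.2.2.2.2.2.2.2.2.2.1 v (f * n) hm0]
      rintro ⟨u, hu⟩
      have h3 : eps v = eps 0 := by
        rw [hu, ← eps_per hE h7m 0 u, zero_add]
      rw [eps_zero hE] at h3
      omega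
    · rw [if_neg h]
      exact VP.zero
  have hU : sumO (f * n) (pl fun v => F v * e v) =
      sumO (f * n) W - 1 / 2 * sumO (f * n) (pl F) := by
    rw [← sumO_mul, ← sumO_sub]
    congr 1
    funext v
    simp only [hWd, pl]
    by_cases h : eps v = 1
    · rw [if_pos h, if_pos h, if_pos h]
      ring
    · rw [if_neg h, if_neg h, if_neg h]
      ring
  have hF2 : sumO (f * n) F = 2 * sumO (f * n) (pl F) :=
    split hE hS h7m hm0 F hFper hFeven hFzero
  have hFs : sumO (f * n) F = sumO f κ * sumO n B :=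
    hSu.1 f n κ B hf0 hn0 hco.symm per hBper
  obtain ⟨g, hgV, hg⟩ := hSu.2 P n B hP.1 hn hBper hBeven hBV
  have hS2 : sumO f κ = 2 * sumO f (pl κ) := split hE hS h7 hf0 κ per even hzero
  have hSV : VP P (sumO f (pl κ)) := by
    refine sumO_vp _ _ fun v => ?_
    unfold pl
    by_cases h : eps v = 1
    · rw [if_pos h]
      exact VP.integral (int v)
    · rw [if_neg h]
      exact VP.zero
  obtain ⟨k, hk⟩ := hm
  have hkO : ((f : Om) * n) = 2 * k + 1 := by
    exact_mod_cast congrArg (fun t : ℕ => (t : Om)) hk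
  have hunit : ¬ MP P ((f : Om) * n) := by
    intro h
    have h3 : MP P ((f : Om) * n - 2 * k) := h.sub (h2.mul_right (VP.nat k))
    rw [hkO] at h3
    exact MP.one_not (by simpa using h3)
  have hV' : VP P (((f : Om) * n)⁻¹) := ((VP.nat f).mul (VP.nat n)).inv hunit
  have hne : ((f : Om) * n) ≠ 0 := by
    exact_mod_cast hm0.ne'
  have hfin : eta (fun v => (eps v : Om) * κ v) (b / n) + sumO f κ / 4 =
      (sumO (f * n) W - sumO f (pl κ) * g + sumO f (pl κ) * k) * ((f : Om) * n)⁻¹ := by
    have h3 : sumO (f * n) (pl F) = sumO f (pl κ) * (1 + 2 * g) := by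
      have h4 : 2 * sumO (f * n) (pl F) = 2 * (sumO f (pl κ) * (1 + 2 * g)) := by
        rw [← hF2, hFs, hS2, hg, hB0]
        ring
      exact mul_left_cancel₀ two_ne_zero h4
    have h5 : (k : Om) = ((f : Om) * n - 1) / 2 := by
      rw [hkO]
      ring
    rw [h11, hsum, hU, h3, hS2, h5]
    have hf1 : (f : Om) ≠ 0 := by exact_mod_cast hf0.ne'
    have hn1 : (n : Om) ≠ 0 := by exact_mod_cast hn0.ne'
    field_simp
    ring
  rw [hfin]
  exact (((sumO_vp _ _ hWV).sub (hSV.mul hgV)).add (hSV.mul (VP.nat k))).mul hV'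

end Pool.Agent.DI.E8
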