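import Pool.Agent.Lib.DI.E8.Spec

/-!
# Theorem DI, parts E7, E8: assembly of `S_E10` - `S_E14` (the modules are hypotheses)
-/

set_option autoImplicit false

open scoped Pointwise Topology

noncomputable section

namespace Pool.Agent.DI.E8

open Pool.Agent.MuZ Pool.Agent.DI

/-- The inputs of the parts E7, E8: statements of other parts. -/
structure Inp : Prop where
  B0 : S_B0
  B2 : S_B2
  B3 : S_B3
  B4 : S_B4
  B5 : S_B5
  A0 : S_A0
  A2 : S_A2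
  C1 : S_C1
  C3 : S_C3
  C4 : S_C4
  C5 : S_C5
  D1 : S_D1
  E1 : S_E1
  E5 : S_E5
  E6 : S_E6
  E8 : S_E8
  UNm : S_UNm
  UCop : S_UCop
  UEps : S_UEps
  USum : S_USum
  UEx : S_UEx
  UHN : S_UHN

/-- The modules. -/
structure Mods : Prop where
  Sl : S_Sl
  Or : S_Or
  EG : S_EG
  EI : S_EI
  E11 : S_E11'
  Li : S_Li
  Tr : S_Tr
  Ch : S_Ch
  E12 : S_E12'
  Ga : S_Ga
  On : S_On
  Su : S_Su
  In : S_In
  Ps : S_Ps
  E13 : S_E13'
  Rh : S_Rh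
  La : S_La
  E14 : S_E14'

theorem all (h : Inp) (m : Mods) : S_E10 ∧ S_E11 ∧ S_E12 ∧ S_E13 ∧ S_E14 := by
  have sl : T_Sl := m.Sl h.B2 h.B3 h.B4 h.B5 h.A0 h.UEx
  have or : T_Or := m.Or h.UNm h.UEx
  have eg : T_EG := m.EG h.UEx sl or
  have ei : T_EI := m.EI h.UEx h.D1 sl or
  have e10 : S_E10 := fun n v hn hv => ⟨eg n v hn hv, ei n v hn hv⟩
  have e11 : S_E11 := m.E11 h.B0 h.A0 h.A2 h.C3
  have li : T_Li := m.Li e11
  have tr : T_Tr := m.Tr h.B0 h.C1 h.C4 h.C5 e11 h.UEps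
  have ch : T_Ch := m.Ch h.UCop h.UEps h.USum h.UHN
  have e12 : S_E12 := m.E12 h.UNm h.UEps li tr ch
  have ga : T_Ga := m.Ga h.B2 h.A2 h.E6 e10 e11 h.UNm h.UCop h.USum h.UEx
  have on : T_On := m.On tr
  have su : T_Su := m.Su h.USum
  have inn : T_In := m.In h.B2 h.A2 e10 e11 h.UNm h.UCop h.UEps h.USum h.UEx su
  have ps : T_Ps := m.Ps h.E1 h.E5 h.E8 h.UHN
  have e13 : S_E13 := m.E13 h.UEps ch on inn ga ps
  have rh : T_Rh := m.Rh h.UCop h.UEps h.USum h.UHN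
  have la : T_La := m.La h.UHN on ga ps rh inn
  have e14 : S_E14 := m.E14 h.UEps h.UHN li tr rh la
  exact ⟨e10, e11, e12, e13, e14⟩

end Pool.Agent.DI.E8
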