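import Pool.Agent.Lib.DI.Util.Spec
import Pool.Agent.Lib.DI.Val

/-!
# Theorem DI, parts E7, E8: the values of `E_1` and the periods (`S_E10` - `S_E14`), statements

Author helper58 (after the note 4051 of helper36; no Gauss sum and no prime numbers are needed).
For every `X` below: `T_X` is a statement and `S_X : Prop` is `(hypotheses) → T_X`; the module
`DI/E8/X.lean` proves `theorem tX : S_X`. The complete proof is in the docstring of `S_X`. The hypotheses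
are statements of `DI/Iface.lean` (`S_B.., S_A.., S_C.., S_D1, S_E..`), of `DI/Util/Spec.lean` (`S_U..`) and
other `T_..` of this file. The facts on `VP, MP` are in `DI/Val.lean`.

All the modules are independent of each other.
-/

set_option autoImplicit false

open scoped Pointwise Topology

noncomputable section

namespace Pool.Agent.DI.E8

open Pool.Agent.MuZ Pool.Agent.DI

/-! ## Definitions -/

/-- The slope of the line through `j z` and `z` (the tangent for `j = 1`). -/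
def slp (z : ℂ) (j : ℕ) : Om :=
  if j = 1 then (3 * xO z ^ 2 - 2 * xO z - 2 - yO z) / (2 * yO z + xO z)
  else (yO (j * z) - yO z) / (xO (j * z) - xO z)

/-- The class `u H_f`. -/
def Cos (f : ℕ) (u v : OO) : Prop := ∃ h : OO, Hf f h ∧ (f : OO) ∣ v - h * u

/-- The function `ε 1_(u H_f)`. -/
def rhoH (f : ℕ) (u v : OO) : Om := by
  classical
  exact if Cos f u v then (eps v : Om) else 0

/-- The function `lam` of `S_E14`. -/
def lamF (f : ℕ) (b d : ℤ) : Om := by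
  classical
  exact if (∃ a c : ℤ, G0 (7 * f ^ 2) a b c d) ∧ (7 * f ^ 2 : ℤ) ∣ d - 1 then
    eta (rhoH f 1) (b / d) - eta (rhoH f 1) 0 else 0

/-! ## E7: the values of `E_1` at the torsion points of odd order -/

/-- `m (E_1(z) + 1/2) = 1 - ∑ slopes`, `m` the order of `z`. -/
def T_Sl : Prop := ∀ (z : ℂ) (m : ℕ), Tor z → 3 ≤ m → (∀ j : ℕ, 0 < j → j < m → ¬ Lat (j * z)) →
  Lat (m * z) →
  (m : Om) * (eO z + 1 / 2) = 1 - ∑ j ∈ Finset.Ico 1 (m - 1), slp z j ∧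
  ∀ j ∈ Finset.Ico 1 (m - 1),
    slp z j ^ 2 + slp z j + 1 - xO (j * z) - xO z = xO ((j + 1 : ℕ) * z)

/-- (module `Sl`, 120 lines) **Slopes.**
Proof. Everything is proved over `ℂ` and transported with `io_inj` (all points `j z` are torsion points,
`S_UEx`: `Tor (toC j * z)`; `S_A0` gives `io (xO (j z)) = XC (j z)` etc.). Put `s_j = io (slp z j)`.
(1) `j = 1` (`z`, `2 z` are not in `Lat` as `2 < m`): `S_B5` with `l = s_1`: `XC (2z) = s_1² + s_1 + 1 - 2 XC z`,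
`EC (2z) = 2 EC z + s_1 + 1/2`. (2) `2 ≤ j ≤ m - 2`: `j z`, `z` are not in `Lat` and `XC (j z) ≠ XC z` by
`S_B3` (1), because `(j - 1) z` and `(j + 1) z` are not in `Lat`; `S_B4` for the points `j z`, `z`, `l = s_j`:
`XC ((j+1) z) = s_j² + s_j + 1 - XC (j z) - XC z`, `EC ((j+1) z) = EC (j z) + EC z + s_j + 1/2`. (1) and (2)
give the second part. (3) Induction: `EC (j z) = j EC z + ∑_(i in Ico 1 j) (s_i + 1/2)` for
`1 ≤ j ≤ m - 1` (`Finset.sum_Ico_succ_top`). (4) `(m - 1) z = -z + toC v` where `m z = toC v`, so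
`EC ((m - 1) z) = EC (-z) = - EC z` (`S_B2`). By (3) with `j = m - 1`:
`m EC z + ∑_(i in Ico 1 (m-1)) s_i + (m - 2)/2 = 0`, that is `m (EC z + 1/2) = 1 - ∑ s_i`. -/
def S_Sl : Prop := S_B2 → S_B3 → S_B4 → S_B5 → S_A0 → S_UEx → T_Sl

/-- The order of a torsion point, and of its multiples by numbers prime to `n`. -/
def T_Or : Prop := ∀ (n : ℕ) (v : OO), Odd n → ¬ (n : OO) ∣ v →
  ∃ m : ℕ, Odd m ∧ 3 ≤ m ∧ ∀ a : OO, Cop a n → ∀ j : ℕ, Lat (j * (toC (a * v) / n)) ↔ m ∣ j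

/-- (module `Or`, 80 lines) **Order.**
Proof. `(n : OO) ∣ u` iff `(n : ℤ) ∣ u.re` and `(n : ℤ) ∣ u.im` (coordinates). `j (toC u / n) = toC (j u) / n`
is in `Lat` iff `(n : OO) ∣ j u` (`S_UEx`). If `a` is prime to `n` then `n ∣ j a v` iff `n ∣ j v`: multiply with
`cjO a`, `a cjO a = Nm a` (`S_UNm`), and `x Nm a + y n = 1`. So the condition is: `n` divides `j re v` and
`j im v`, or `n ∣ j g`, `g = gcd(re v, im v)` (a natural number), or `m ∣ j` with `m = n / gcd(n, g)`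
(`Nat.Coprime.dvd_of_dvd_mul_right`..). `m` divides `n`, so it is odd, and `m ≠ 1` as `n ∤ v` (`j = 1`). -/
def S_Or : Prop := S_UNm → S_UEx → T_Or

/-- The first part of `S_E10`. -/
def T_EG : Prop := ∀ (n : ℕ) (v : OO), Odd n → ¬ Lat (toC v / n) → ∀ τ ∈ GK, ∀ a : OO, Psi τ n a →
  τ (eO (toC v / n)) = eO (toC (a * v) / n)

/-- (module `EG`, 70 lines) **Galois action.**
Proof. `z = toC v / n`, `z' = toC (a v) / n`. `¬ (n : OO) ∣ v` (`S_UEx`); `m` from `T_Or`: `j z` in `Lat` iff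
`m ∣ j` iff `j z'` in `Lat` (`T_Or` for `1` and for `a`, `Cop a n` is in `Psi`). `j z = toC (j v) / n`, so
`τ (xO (j z)) = xO (j z')`, `τ (yO (j z)) = yO (j z')` for all `j` (`Psi` for `j v`; `j = 1` too) and
`τ (slp z j) = slp z' j`. Apply `τ` to `T_Sl` for `z` and compare with `T_Sl` for `z'`:
`m (τ (eO z) + 1/2) = m (eO z' + 1/2)`, `(m : Om) ≠ 0`. -/
def S_EG : Prop := S_UEx → T_Sl → T_Or → T_EG

/-- The second part of `S_E10`. -/
def T_EI : Prop := ∀ (n : ℕ) (v : OO), Odd n → ¬ Lat (toC v / n) → ∀ P : Ideal ZZ, Npr P → MP P 2 →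
  VP P (eO (toC v / n) + 1 / 2)

/-- (module `EI`, 90 lines) **Integrality.**
Proof. `z = toC v / n`, `m` from `T_Or` (`a = 1`). (1) `wO (1 - wO) = 2` (`wO_sq`), `wO = toO pO`,
`1 - wO = toO pbO`, both are integral over `ℤ` (roots of `t² - t + 2`), so `MP P (toO pO)` or `MP P (toO pbO)`
(`MP.mul_cases`), and `S_D1` for `(pO, pbO)` or `(pbO, pO)` gives `I2 P w → Qp P w` (third clause).
(2) `¬ MP P (toO n)`: `n = 2 k + 1`, `MP P 2`, `MP.one_not`. (3) For `0 < j < m` the point `w = j z` is not in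
`Lat`, and `VP P (xO w)`: otherwise `I2 P w`, so `Qp P w`, and with `α = n`, `β = 1`: `Lat (n w)` gives `Lat w`.
(4) For `j` in `Ico 1 (m-1)`, `s = slp z j` satisfies `s² + s + c = 0` with `VP P c` (`T_Sl`, (3)), so `VP P s`:
otherwise `s ≠ 0` and `MP P s⁻¹` (`VP.not_iff`) and `1 = - s⁻¹ - c s⁻¹ s⁻¹` is in `M_P`. (5) `T_Sl`:
`VP P (m (eO z + 1/2))`, and `m` is odd, so it is a unit of `V_P` (`VP.inv`). -/
def S_EI : Prop := S_UEx → S_D1 → T_Sl → T_Or → T_EI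

/-! ## E8: the functions `η` -/

/-- (module `E11`, 60 lines) **`S_E11`.**
Proof. Let `R` be the right hand side of the second equation. `ρ' = fun v => io (ρ v)` satisfies `IsRho f ρ'`.
`io R = 1/(2 f n) sumO (f n) (ρ' v * ex (1/n) ^ (b Nm v) * EC (toC v / (f n)))` (`map_sum`, `map_zpow₀`, `S_A2`,
`S_A0`, `Tor` by definition) and `ex (1/n) ^ (b Nm v) = ex (b Nm v / n)` (`Complex.exp_int_mul`), so by `S_C3`:
`hC ρ' (b/n) = OmC * io R`. `OmC ≠ 0` (`S_B0`): `eta ρ (b/n) = ofC (io R) = R` (`ofC_io`), and then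
`io (eta ρ (b/n)) * OmC = hC ρ' (b/n)`. -/
def S_E11' : Prop := S_B0 → S_A0 → S_A2 → S_C3 → S_E11

/-- Linearity. -/
def T_Li : Prop := ∀ f : ℕ, Odd f → 7 ∣ f →
  (∀ (ι : Type) (s : Finset ι) (c : ι → Om) (ρ : ι → OO → Om), (∀ i ∈ s, IsRho f (ρ i)) →
    IsRho f (fun v => ∑ i ∈ s, c i * ρ i v) ∧
    ∀ r : ℚ, eta (fun v => ∑ i ∈ s, c i * ρ i v) r = ∑ i ∈ s, c i * eta (ρ i) r) ∧
  (∀ (c : Om) (ρ : OO → Om), IsRho f ρ → ∀ r : ℚ, eta (fun v => c * ρ v) r = c * eta ρ r) ∧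
  ∀ (a : OO) (ρ : OO → Om), IsRho f ρ → IsRho f (fun v => ρ (a * v))

/-- (module `Li`, 50 lines) **Linearity.**
Proof. `IsRho` is clear (`a (v + f u) = a v + f (a u)`, `a (-v) = - (a v)`). Write `r = r.num / r.den`
(`Rat.num_div_den`) and apply the second part of `S_E11`; `Finset.sum_comm`, `Finset.mul_sum`. -/
def S_Li : Prop := S_E11 → T_Li

/-- The transformation formulas for `η_ρ`. -/
def T_Tr : Prop := ∀ f : ℕ, Odd f → 7 ∣ f → ∀ ρ : OO → Om, IsRho f ρ →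
  (∀ a b c d : ℤ, G0 (7 * f ^ 2) a b c d → ∀ r : ℚ, c * r + d ≠ 0 →
    eta ρ ((a * r + b) / (c * r + d)) = eps d * eta (fun v => ρ (d * v)) r +
      (eta ρ (b / d) - eps d * eta (fun v => ρ (d * v)) 0)) ∧
  (∀ (r : ℚ) (k : ℤ), eta ρ (r + k) = eta ρ r) ∧
  (∀ r : ℚ, eta ρ (r / 2) + eta ρ ((r + 1) / 2) + eta (fun v => ρ (2 * v)) (2 * r) =
    wbO * eta (fun v => ρ (pO * v)) r + wO * eta (fun v => ρ (pbO * v)) r) ∧
  (∀ a b c d : ℤ, G0 (7 * f ^ 2) a b c d → ∀ k : ℤ, c * k + d ≠ 0 →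
    eta ρ ((a * k + b) / (c * k + d)) = eta ρ (b / d)) ∧
  ∀ a b c d : ℤ, G0 (7 * f ^ 2) a b c d → (7 * f ^ 2 : ℤ) ∣ d - 1 → ∀ z : ℂ, 0 < z.im →
    Th (fun v => io (ρ v)) ((a * z + b) / (c * z + d)) - Th (fun v => io (ρ v)) z =
      OmC * io (eta ρ (b / d) - eta ρ 0)

/-- (module `Tr`, 120 lines) **Transformation.**
Proof. `ρ' = io ∘ ρ`. (0) For every `r`: `io (eta ρ r) * OmC = hC ρ' r` (`S_E11`, first part, with
`r = r.num / r.den`), the same for `ρ (a *)` (`IsRho f (fun v => ρ (a * v))`), and `OmC ≠ 0`. So every equation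
between values `hC` gives one between values `eta` (`io_inj`; `io wO = wC`, `io wbO = wbC`).
(1) `S_C1` for `ρ'`: `Φ`; `d ≠ 0` (otherwise `-b c = 1`, `7 ∣ c`); `r = 0`: `hC ρ' (b/d) = ε(d) hC(ρ'(d *)) 0 + Φ`;
eliminate `Φ`. (2) `S_C5` for `k = 1`, induction on `k` in `ℤ` (`Int.induction_on`; `r - 1 + 1 = r`).
(3) `S_C4`. (4) (1) with `r = k` and `eta (ρ(d *)) k = eta (ρ(d *)) 0` ((2) for `r = 0`). (5) `S_C1`, first part,
with the same `Φ = OmC io (eta ρ (b/d) - eta ρ 0)` (second part at `r = 0`), where `ε(d) = 1`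
(`eps (d : OO) = jacobiSym d 7`, `S_UEps`, `7 ∣ d - 1`, `jacobiSym.mod_left`) and `ρ (d v) = ρ (v + f (k v)) = ρ v`
as `f ∣ d - 1`. -/
def S_Tr : Prop := S_B0 → S_C1 → S_C4 → S_C5 → S_E11 → S_UEps → T_Tr

/-- The characters `χ`. -/
def T_Ch : Prop := ∀ (f : ℕ) (χ : OO → Om), Odd f → 7 ∣ f → IsChi f χ →
  χ 1 = 1 ∧ (∀ v, χ (-v) = χ v) ∧ (∀ v, Hf f v → χ v = 1) ∧ (∀ v, IsIntegral ℤ (χ v)) ∧
  IsRho f (fun v => (eps v : Om) * χ v) ∧ ((∃ v, Cop v f ∧ χ v ≠ 1) → sumO f χ = 0)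

/-- (module `Ch`, 80 lines) **Characters.**
Proof. `m` odd, `χ v ^ m = 1` for `Cop v f` (`IsChi.odd`). `Cop 1 f`: `χ 1 ≠ 0`, `χ 1 = χ 1 * χ 1`: `χ 1 = 1`.
`Hf f v`: `f ∣ v^(2^k) - 1`, so `χ (v^(2^k)) = χ 1 = 1` (`IsChi.per`) and `(χ v)^(2^k) = 1` (`IsChi.mul`, `χ 1 = 1`,
induction) and `(χ v)^m = 1`, `m` odd: `χ v = 1` (`pow_gcd_eq_one`, or `orderOf` divides both). `Hf f (-1)` (`S_UHN`)
gives `χ (-v) = χ (-1) χ v = χ v`. Integral: `0` or a root of unity (`IsIntegral.of_pow`, `m > 0`). `IsRho`: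
`ε` is `7`-periodic (`S_UEps`), `7 ∣ f`, and `ε (-v) = -ε v`. `sumO f χ = 0`: for `a` with `Cop a f`, `χ a ≠ 1`:
`sumO f χ = sumO f (fun v => χ (a v)) = χ a * sumO f χ` (`S_USum` (2), `f ∣ v - u ↔ f ∣ a v - a u` as `a` is prime to `f`:
`S_UCop`, `IsCoprime.dvd_of_dvd_mul_left`). -/
def S_Ch : Prop := S_UCop → S_UEps → S_USum → S_UHN → T_Ch

/-- (module `E12`, 80 lines) **`S_E12`.**
Proof. `ρ = ε χ`, `etaX χ = eta ρ` (by definition). `ρ (a v) = (ε(a) χ(a)) ρ v` (`S_UEps`, `IsChi.mul`), so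
`eta (fun v => ρ (a * v)) r = ε(a) χ(a) eta ρ r` (`T_Li`, second part). `ε(d)² = 1`: `Cop d 7` as
`a d - b c = 1`, `7 ∣ c` (`S_UEps`; `Nm d = d²`); `ε(π) = ε(π̄) = ε(2) = 1`. Insert in `T_Tr` (1), (2), (3). -/
def S_E12' : Prop := S_UNm → S_UEps → T_Li → T_Tr → T_Ch → S_E12

/-- Galois action on `η_ρ(b/n)`, `n` odd. -/
def T_Ga : Prop := ∀ f : ℕ, Odd f → 7 ∣ f → ∀ ρ ρ' : OO → Om, IsRho f ρ → IsRho f ρ' →
  ∀ (b : ℤ) (n : ℕ), Odd n → ∀ τ ∈ GK, ∀ a : OO, Psi τ (f * n) a → (∀ v, ρ' (a * v) = τ (ρ v)) →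
    τ (eta ρ (b / n)) = eta ρ' (b / n)

/-- (module `Ga`, 150 lines) **Galois action on `η`.**
Proof. `m = f n` is odd, `ζ = zet n`, `ζ ^ n = 1` (`S_A2`). By `S_E11`: `2 m τ (eta ρ (b/n))` is the `sumO m` of
`τ (ρ v) * τ ζ ^ (b Nm v) * τ (eO (toC v / m))`. `τ ζ = ζ ^ (Nm a).toNat` (`S_E6`, `N = m`, `ζ ^ m = 1`), so
`τ ζ ^ (b Nm v) = ζ ^ (b Nm (a v))` (`Nm` is multiplicative and `≥ 0`: `S_UNm`; `zpow_natCast`, `zpow_mul`). If
`¬ Lat (toC v / m)` then `τ (eO (toC v / m)) = eO (toC (a v) / m)` (`S_E10`); if `Lat (toC v / m)` then `m ∣ v`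
(`S_UEx`) and `ρ v = ρ 0 = 0` (`IsRho.per`, `IsRho.odd`: `ρ 0 = -ρ 0`), and `ρ' (a v) = 0` too. So the summand is
`F (a v)`, `F v = ρ' v * ζ ^ (b Nm v) * eO (toC v / m)`. `F` is `m`-periodic: `Nm (v + m u) - Nm v` is divisible by
`n` (coordinates), `ζ ^ n = 1`, and `toC (v + m u) / m = toC v / m + toC u`, `EC` is periodic (`S_B2`; `eO z = ofC (EC z)`).
`S_USum` (2) with `φ v = a v` (`a` is prime to `m`: `m ∣ a v - a u ↔ m ∣ v - u`, `S_UCop`): `sumO m (F (a v)) = sumO m F`. -/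
def S_Ga : Prop := S_B2 → S_A2 → S_E6 → S_E10 → S_E11 → S_UNm → S_UCop → S_USum → S_UEx → T_Ga

/-- Reduction to odd denominators. -/
def T_On : Prop := ∀ f : ℕ, Odd f → 7 ∣ f →
  (∀ r : ℚ, r.den.Coprime f → ∃ (b : ℤ) (n : ℕ), Odd n ∧ n.Coprime f ∧
    ∀ ρ : OO → Om, IsRho f ρ → eta ρ r = eta ρ (b / n)) ∧
  ∀ a b c d : ℤ, G0 (7 * f ^ 2) a b c d → (b / d : ℚ).den.Coprime f

/-- (module `On`, 90 lines) **Odd denominators.**
Proof. First part. `b = r.num`, `n = r.den`, `r = b/n`. If `n` is odd: trivial. If `n` is even: `n` is prime to `b`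
and to `7 f²` (`7 ∣ f`), so there are `x, y` with `x n + y (7 f² b) = 1` (`IsCoprime`). Put `a = x`, `c = -7 f² y`:
`G0 (7 f²) a b c n`. `b c` is odd (`a n - b c = 1`), so `c + n` is odd, not `0`, and prime to `f` (`f ∣ c`). `T_Tr` (4)
with `k = 1`: `eta ρ ((a + b)/(c + n)) = eta ρ (b/n)`. If `c + n > 0` take `a + b`, `c + n`, otherwise `-(a + b)`,
`-(c + n)` (`Int.toNat` or `natAbs`). Second part. `d` is prime to `b` and to `c`, so to `f`, and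
`(b/d : ℚ).den` divides `d` (`Rat.den_div_cast_eq`.., `Rat.den_dvd`), so it is prime to `f`. -/
def S_On : Prop := T_Tr → T_On

/-- Finite sums: (1) the Chinese remainder theorem; (2) even functions. -/
def T_Su : Prop :=
  (∀ (f n : ℕ) (A B : OO → Om), 0 < f → 0 < n → f.Coprime n → (∀ v u, A (v + f * u) = A v) →
    (∀ v u, B (v + n * u) = B v) → sumO (f * n) (fun v => A v * B v) = sumO f A * sumO n B) ∧
  ∀ (P : Ideal ZZ) (n : ℕ) (B : OO → Om), P.IsPrime → Odd n → (∀ v u, B (v + n * u) = B v) →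
    (∀ v, B (-v) = B v) → (∀ v, VP P (B v)) → ∃ g : Om, VP P g ∧ sumO n B = B 0 + 2 * g

/-- (module `Su`, 120 lines) **Sums.**
Proof. (1) `S_USum` (3) for `H = A B` (which is `f n`-periodic): `sumO (f n) H = sumO f (fun v => sumO n (fun u =>
H (v + f u)))`, `H (v + f u) = A v * B (v + f u)`, and `sumO n (fun u => B (v + f u)) = sumO n B` by `S_USum` (2) for
`φ u = v + f u` (`n ∣ f (u - u') ↔ n ∣ u - u'`, as `f, n` are coprime integers). (2) Let `Q v` be: `0 < x` and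
`2 x < n`, or `x = 0` and `0 < y` and `2 y < n`, where `x = v.re % n`, `y = v.im % n` (`Int.emod`). `Q` is `n`-periodic;
if `n ∣ v` (that is `x = y = 0`) then `¬ Q v`; otherwise exactly one of `Q v`, `Q (-v)` holds (`(-x) % n = n - x % n`
if `x % n ≠ 0`, and `n` is odd). Let `U v = B v` if `Q v` and `0` otherwise: `B v = (B 0 if n ∣ v, else 0) + U v + U (-v)`.
`sumO n (U (-v)) = sumO n U` (`S_USum` (2), `φ = neg`) and `sumO n (if n ∣ v then B 0 else 0) = B 0` (only `⟨0, 0⟩` of the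
`⟨a, b⟩` with `a, b < n` is divisible by `n`). `g = sumO n U` (`VP.sum`). -/
def S_Su : Prop := S_USum → T_Su

/-- Integrality of `η`, up to a constant. -/
def T_In : Prop := ∀ f : ℕ, Odd f → 7 ∣ f → ∀ κ : OO → Om, (∀ v u, κ (v + f * u) = κ v) →
  (∀ v, κ (-v) = κ v) → (∀ v, ¬ Cop v f → κ v = 0) → (∀ v, IsIntegral ℤ (κ v)) →
  ∀ (b : ℤ) (n : ℕ), Odd n → n.Coprime f → ∀ P : Ideal ZZ, Npr P → MP P 2 →
    VP P (eta (fun v => (eps v : Om) * κ v) (b / n) + sumO f κ / 4)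

/-- (module `In`, 180 lines) **Integrality of `η`.**
Proof. `m = f n`, `ζ = zet n`, `F v = κ v * ζ ^ (b Nm v)`, `e v = eO (toC v / m)`: `F`, `e` are `m`-periodic, `F` is even
and `e` is odd (`S_B2`; `Nm (-v) = Nm v`). (0) `ε v ∈ {0, 1, -1}`; if `ε v = 0` then `v` is not prime to `7`, so not to `f`
and `κ v = 0` (`S_UEps`, `S_UCop`). (1) For `G` even or odd put `G⁺ v = G v` if `ε v = 1` and `0` otherwise. With
`U = (F e)⁺`: `ε v F v e v = U v + U (-v)` (three cases, `ε (-v) = -ε v`), so the sum of `S_E11` is `2 sumO m U`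
(`S_USum` (2), `φ = neg`) and `eta = sumO m U / m`. (2) `U = W - F⁺/2`, `W v = F v (e v + 1/2)` if `ε v = 1`, and
`VP P (W v)`: if `ε v = 1` then `¬ Lat (toC v / m)` (otherwise `m ∣ v`, `7 ∣ v`, `ε v = ε 0 = 0`), `S_E10` (2); `ζ` and
`κ v` are integral over `ℤ` (`VP.integral`; `ζ ^ k` for `k` in `ℤ`: `ζ` and `ζ⁻¹` are integral). (3) `F v = F⁺ v + F⁺ (-v)` by (0),
so `2 sumO m F⁺ = sumO m F = sumO f κ * sumO n (ζ ^ (b Nm v))` (`T_Su` (1)), and `sumO n (ζ ^ (b Nm v)) = 1 + 2 g`, `VP P g`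
(`T_Su` (2)). (4) In the same way `sumO f κ = 2 S`, `S = sumO f κ⁺`, `VP P S`. (5) So
`eta + sumO f κ / 4 = sumO m W / m - (2 S)(1 + 2 g)/(4 m) + S/2 = sumO m W / m - S g / m + S (m - 1)/(2 m)`, and
`(m - 1)/2` is an integer, `m` is odd, so a unit of `V_P`. -/
def S_In : Prop := S_B2 → S_A2 → S_E10 → S_E11 → S_UNm → S_UCop → S_UEps → S_USum → S_UEx → T_Su → T_In

/-- `Psi` modulo a divisor; the group `Hf`; the element `a` for the level `f n`. -/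
def T_Ps : Prop :=
  (∀ (τ : Gal(Om/ℚ)) (m k : ℕ) (a : OO), 0 < m → 0 < k → Psi τ (m * k) a → Psi τ m a) ∧
  ∀ f : ℕ, Odd f → 7 ∣ f → ∀ τ ∈ GK, ∀ n : ℕ, 0 < n → ∃ a : OO, Psi τ (f * n) a ∧ Psi τ f a ∧
    Cop a f ∧ eps a = 1 ∧ ((∀ x ∈ Lf f, τ x = x) → Hf f a) ∧
    ∀ a' : OO, Psi τ f a' → (f : OO) ∣ a - a' ∧ (Hf f a' → Hf f a)

/-- (module `Ps`, 70 lines) **`Psi`.**
Proof. (1) `toC v / m = toC (k v) / (m k)` and `toC (a v) / m = toC (a (k v)) / (m k)`; `Cop a (m k)` gives `Cop a m`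
(`IsCoprime.of_mul_right_left`, casts). (2) `a` from `S_E1` (1) for `N = f n`; `eps a = 1` by `S_E5` (`7 ∣ f n`); `S_E8`
for `N = f`, `H = Hf f` (its hypotheses: `S_UHN`; `Lf f = FixH f (Hf f)` by definition): `(∀ x ∈ Lf f, τ x = x) ↔ Hf f a`.
`S_E1` (2): `f ∣ a - a'`, so `a = a' + f u` and `Hf f a'` gives `Hf f a` (`S_UHN`). -/
def S_Ps : Prop := S_E1 → S_E5 → S_E8 → S_UHN → T_Ps

/-- (module `E13`, 80 lines) **`S_E13`.**
Proof. `T_On` (1): `etaX χ r = etaX χ (b/n)` with `n` odd, prime to `f` (`T_Ch`: `IsRho`). (1) `T_In` for `κ = χ` (`T_Ch`)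
and `sumO f χ = 0`. (2) `a` from `T_Ps` (2): `Hf f a`, so `χ a = 1`, and `eps a = 1`. `T_Ga` with `ρ = ρ' = ε χ`:
`ρ' (a v) = ε(a) ε(v) χ(a) χ(v) = ρ v = τ (ρ v)` (`τ` fixes the integer `ε(v)` and `χ v`). -/
def S_E13' : Prop := S_UEps → T_Ch → T_On → T_In → T_Ga → T_Ps → S_E13

/-- The functions `rhoH`. -/
def T_Rh : Prop := ∀ f : ℕ, Odd f → 7 ∣ f →
  (∀ u : OO, IsRho f (rhoH f u)) ∧
  (∀ u a v : OO, Cop u f → (f : OO) ∣ a - u ∨ (f : OO) ∣ a + u → eps a = 1 → rhoH f u (a * v) = rhoH f 1 v) ∧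
  (∀ u : OO, Hf f u → rhoH f u = rhoH f 1) ∧
  (∀ v : OO, Cos f 1 v ↔ Hf f v) ∧
  ∀ κ : OO → Om, (∀ v u, κ (v + f * u) = κ v) → (∀ v h, Hf f h → κ (h * v) = κ v) →
    (∀ v, ¬ Cop v f → κ v = 0) → ∀ w : OO,
    sumO f (fun v => by
      classical exact if Cop v f then κ v * rhoH f v w else 0) =
    sumO f (fun v => by
      classical exact if Hf f v then (1 : Om) else 0) * ((eps w : Om) * κ w)

/-- (module `Rh`, 150 lines) **The functions `rhoH`.**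
Proof. `H = Hf f` is closed under multiplication and inverses modulo `f`, is `f`-periodic and contains `±1` (`S_UHN`).
(4) `f ∣ v - h` and `h ∈ H` gives `v ∈ H`; conversely `h = v`. (1) `Cos f u (v + f x) ↔ Cos f u v`,
`Cos f u (-v) ↔ Cos f u v` (replace `h` by `-h`), `ε` is `7`-periodic and odd (`S_UEps`). (2) `ε (a v) = ε v`, and
`Cos f u (a v) ↔ Hf f v`: `a = ±u` modulo `f`; if `f ∣ a v - h u` then `f ∣ u (± v - h)` and `u` is prime to `f`, so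
`f ∣ ± v - h`, `v ∈ H`; conversely `h = ± v`. (3) (if `u ∈ H`) `Cos f u v ↔ Hf f v ↔ Cos f 1 v`. (5) If `w` is not prime to
`f`: if `Cop v f` and `Cos f v w` then `w = h v` modulo `f` is prime to `f` (`S_UCop`), so every summand is `0`, and `κ w = 0`.
If `Cop w f`: let `G v` be the summand; it is `f`-periodic in `v`; by `S_USum` (2) for `φ v = w v` the sum is
`sumO f (fun v => G (w v))`, and `G (w v) = ε(w) κ(w)` if `v ∈ H` and `0` otherwise: `Cop (w v) f ↔ Cop v f`;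
`Cos f (w v) w ↔ ∃ h ∈ H, f ∣ w (1 - h v) ↔ ∃ h ∈ H, f ∣ h v - 1 ↔ v ∈ H` (inverses modulo `f`: if `v` is prime to `f` there is
`x` with `f ∣ v x - 1`), and `κ (w v) = κ (v w) = κ w` for `v ∈ H`. -/
def S_Rh : Prop := S_UCop → S_UEps → S_USum → S_UHN → T_Rh

/-- The function `lam`. -/
def T_La : Prop := ∀ f : ℕ, Odd f → 7 ∣ f →
  (∀ b d : ℤ, lamF f b d ∈ Lf f ∧ ∀ P : Ideal ZZ, Npr P → MP P 2 → VP P (lamF f b d)) ∧
  ∀ a b c d : ℤ, G0 (7 * f ^ 2) a b c d → (7 * f ^ 2 : ℤ) ∣ d - 1 → ∀ (v : OO) (τ : Gal(Om/ℚ)), Cop v f → τ ∈ GK →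
    (Psi τ f v ∨ Psi τ f (-v)) → τ (lamF f b d) = eta (rhoH f v) (b / d) - eta (rhoH f v) 0

/-- (module `La`, 150 lines) **The function `lam`.**
Proof. If the condition in the definition of `lamF` fails, it is `0` and everything is clear. Otherwise `G0 .. a b c d`.
`T_On`: `b/d` has a denominator prime to `f`, so there are `b', n`, `n` odd and prime to `f`, with
`eta ρ (b/d) = eta ρ (b'/n)` for all `ρ` with `IsRho f ρ`; in particular for the `rhoH f u` (`T_Rh` (1)). And `0 = 0/1`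
(`(0 : ℚ) = (0 : ℤ) / (1 : ℕ)`). (A) Let `τ ∈ GK`, `Psi τ f v` or `Psi τ f (-v)`, `Cop v f`. For `k = n` and for `k = 1`: `T_Ps` (2)
gives `a` with `Psi τ (f k) a`, `eps a = 1`, `f ∣ a - v` or `f ∣ a + v`; `T_Ga` with `ρ = rhoH f 1`, `ρ' = rhoH f v`:
`rhoH f v (a u) = rhoH f 1 u = τ (rhoH f 1 u)` (`T_Rh` (2); the values are integers). So
`τ (eta (rhoH f 1) (b'/n)) = eta (rhoH f v) (b'/n)`, the same for `0/1`: the last part. (B) `lamF ∈ Lf f = FixH f (Hf f)`: for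
`τ ∈ GK`, `Psi τ f a'`, `Hf f a'` (so `Cop a' f`): by (A) `τ lam = eta (rhoH f a') .. - .. = lam` (`T_Rh` (3)). (C) Integrality:
`rhoH f 1 v = ε(v) κ(v)`, `κ = 1` on `Hf f` and `0` elsewhere (`T_Rh` (4), `S_UHN`: periodic, even, `0` outside of the elements prime
to `f`), `T_In` for `b'/n` and for `0/1`, and `VP.sub`. -/
def S_La : Prop := S_UHN → T_On → T_Ga → T_Ps → T_Rh → T_In → T_La

/-- (module `E14`, 100 lines) **`S_E14`.**
Proof. `lam = lamF f`; the first part is `T_La`. Let `ρ v = ε(v) κ(v)`; `IsRho f ρ` (`κ (-v) = κ v` as `Hf f (-1)`: `S_UHN`;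
`S_UEps`, `7 ∣ f`). By `T_Tr` (5) the difference of the values of `Th` is `OmC io (eta ρ (b/d) - eta ρ 0)` (note
`io (ε(v) κ(v)) = ε(v) io (κ v)`). Let `N` be the sum of `Hf f`. By `T_Rh` (5), `N ρ = ∑_v κ(v) rhoH f v` (sum over the `v`
of `sumO f` with `Cop v f`), so by `T_Li` (write `sumO` as a sum over the finite set of the pairs, or over the finite set of the
`⟨a, b⟩`; the coefficient is `c v = κ v` if `Cop v f` and `0` otherwise): `N eta ρ r = sumO f (c v * eta (rhoH f v) r)` for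
`r = b/d` and `r = 0`, and `eta (rhoH f v) (b/d) - eta (rhoH f v) 0 = σ v (lam b d)` for `Cop v f` (`T_La`). Apply `io`
(`map_sum`; `io N` is the sum in `ℂ`). -/
def S_E14' : Prop := S_UEps → S_UHN → T_Li → T_Tr → T_Rh → T_La → S_E14

end Pool.Agent.DI.E8
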